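import Mathlib
import Pool.Agent.helper68.SF.SpecS

/-!
Project SF (MP_d52931_gt), block sa: ASYMPTOTICS. The wave sum of one metric grows without bound for
profiles of bounded mass. Statements of the modules with proofs.

Rules as in SpecW: module `XX` is the theorem `SF.XX (h : YY_stmt) ... : XX_stmt` in
`Pool/Agent/<seat>/SF/XX.lean` (import `Pool.Agent.helper1.SF.SpecA`, namespace `SF`, auxiliary lemmas prefixed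
`XX_`, no double quotes). Any other statement of the project may be a hypothesis (no circles).

Conventions of Lean are used everywhere: `√x = 0` for `x ≤ 0`, `a / 0 = 0`, `log x = log |x|`. So
`1 / √(σ - A)` is automatically `0` for `σ ≤ A`, and no indicator functions are needed.

Notation: `B = y² l'² + l²` (`BB`), `q = qq l l' y = B / y`, `e^{2 s} = 1 / q` for `s = ss l l' y`.
For a vector `v`: `nv v y = v₁² y² + v₂²`, `Im (γ_v (i y)) = Y = y / nv v y`.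
-/

set_option autoImplicit false

namespace SF

open Pool.Agent.helper72.Sq MeasureTheory Set
open scoped ContDiff

/-! ## Packets -/

/-- cutoff: `1` on `(-∞, 1/4]`, `0` on `[1/2, ∞)` -/
noncomputable def eta (u : ℝ) : ℝ := Real.smoothTransition (2 - 4 * u)

/-- bump with support in `(1/8, 1/2)` -/
noncomputable def E0 (w : ℝ) : ℝ := √w * (eta w - eta (2 * w))

/-- packet: `√(a - 1) / a (η (2^k v) - η (2^{k+1} v))` with `v = (a - 1) / a` -/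
noncomputable def pk (k : ℕ) (a : ℝ) : ℝ :=
  if 1 < a then E0 (2 ^ k * (1 - 1 / a)) / √(2 ^ k * a) else 0

/-- sum of packets; for `a > 1` it telescopes to `√(a - 1) / a (η (2^ka v) - η (2^K v))` -/
noncomputable def gs (ka K : ℕ) (a : ℝ) : ℝ := ∑ k ∈ Finset.Ico ka K, pk k a

/-- profiles with support in `[1, 2]` -/
def Pg (g : ℝ → ℝ) : Prop := Prof g ∧ ∀ a, 2 ≤ a → g a = 0

/-- profiles with support in `[1 + κ, 1 + 8 κ]` -/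
def Pk (κ : ℝ) (g : ℝ → ℝ) : Prop :=
  Prof g ∧ 0 < κ ∧ κ ≤ 1 / 8 ∧ ∀ a, a ≤ 1 + κ ∨ 1 + 8 * κ ≤ a → g a = 0

/-- PKA: support. `E0 w ≠ 0` implies `1/8 < w < 1/2`; `2^k (1 - 1/a) > 1/8` gives
`a > 1 / (1 - 2^{-k-3}) > 1 + 2^{-k-3}` and `2^k (1 - 1/a) < 1/2` gives `a < 1 / (1 - 2^{-k-1}) ≤ 1 + 2^{-k}`. Smooth: `E0` is
smooth (near a point `w ≤ 1/16` it vanishes), `pk k` is smooth on `a > 1/2` and vanishes for `a < 1 + 2^{-k-3}`. -/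
def PKA_stmt : Prop := ContDiff ℝ ∞ E0 ∧ (∀ w, E0 w ≠ 0 → 1 / 8 < w ∧ w < 1 / 2) ∧
  ∀ k : ℕ, Pk (1 / 2 ^ (k + 3)) (pk k)

/-- PKB: size of the derivatives. On the support `1 ≤ a ≤ 2`. Product rule and chain rule for
`E0 (2^k (1 - 1/a)) · 2^{-k/2} · a^{-1/2}`: `norm_iteratedFDeriv_mul_le`, `norm_iteratedFDeriv_comp_le` (inner function with
derivatives at most `(D 2^k)^i` on `a > 1/2`), or `iteratedDeriv` of a polynomial expression by induction: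
the functions `2^{jk} H (2^k (1 - 1/a)) a^{-n} √a` with `H` smooth with support in `[1/8, 1/2]` span a space which is
stable under `d/da`. -/
def PKB_stmt : Prop := ∃ C : ℝ, 0 < C ∧ ∀ k : ℕ, Bd 12 (C * 2 ^ (12 * k)) (pk k)

/-- PKC: variation. `|pk'| ≤ C 2^{k/2}` on the support `(1 + 2^{-k-3}, 1 + 2^{-k})`. -/
def PKC_stmt : Prop := ∃ C : ℝ, 0 < C ∧ ∀ k : ℕ,
  ∫ σ in (1 : ℝ)..2, |deriv (pk k) σ| ≤ C / √(2 ^ k) ∧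
  ∫ σ in (1 : ℝ)..2, |deriv (pk k) σ| / √(σ - 1) ≤ C

/-- PKD: the moment. Integrate by parts (`pk` vanishes near 1 and at 2): `½ ∫ pk (σ) (σ - 1)^{-3/2} dσ`; with
`v = 1 - 1/σ`, `dv = dσ / σ²`: `pk (σ) (σ - 1)^{-3/2} dσ = (η (2^k v) - η (2^{k+1} v)) dv / v`. The integral over
`v ∈ (0, ∞)` is `log 2` (Frullani: `∫_{ε}^{T} η (2^k v) dv / v - ∫_{2ε}^{2T} η (2^k v) dv / v`, `η = 1` near 0). -/
def PKD_stmt : Prop := ∀ k : ℕ, ∫ σ in (1 : ℝ)..2, deriv (pk k) σ / √(σ - 1) = Real.log 2 / 2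

/-! ## The mass of a sum of packets -/

/-- `½ η (v) + v η' (v)` -/
noncomputable def om (v : ℝ) : ℝ := 1 / 2 * eta v + v * deriv eta v

/-- `Θ` -/
noncomputable def Th (σ : ℝ) : ℝ := ∫ t in (0 : ℝ)..1, om (σ * t) / √(t * (1 - t))

/-- MSA: `Φ` of a sum of packets. `𝒢 (r) = g (1/r²) / r = E (1 - r²)` for `0 < r`, where
`E (w) = √w (η (2^ka w) - η (2^K w))` for `w > 0` and `E (w) = 0` for `w ≤ 0`. So `𝒢' (r) / r = - 2 E' (1 - r²)` and with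
`w0 = 1 - ρ²`: `Ph g ρ = - 2 ρ ∫_0^∞ E' (w0 - t²) dt = - ρ ∫_0^{w0} E' (w) (w0 - w)^{-1/2} dw`. For one term `√w η (N w)`:
`E' (w) = w^{-1/2} om (N w)`; substitute `w = w0 t`. -/
def MSA_stmt : Prop := ∀ (ka K : ℕ) (ρ : ℝ), ka ≤ K → 0 < ρ → ρ < 1 →
  Ph (gs ka K) ρ = -ρ * (Th (2 ^ ka * (1 - ρ ^ 2)) - Th (2 ^ K * (1 - ρ ^ 2)))

/-- MSC: `Θ` is bounded, `|Θ' (σ)| ≤ ∫_0^1 |om' (σ t)| √t / √(1 - t) dt`; `om'` is bounded and vanishes outside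
`[1/4, 1/2]`. For `σ ≥ 1` only `t ≤ 1 / (2 σ) ≤ 1/2` contribute: `≤ C ∫_0^{1/(2σ)} √t dt`. -/
def MSC_stmt : Prop := ∃ C : ℝ, 0 < C ∧ ∀ σ : ℝ, 0 < σ → DifferentiableAt ℝ Th σ ∧ |Th σ| ≤ C ∧
  |deriv Th σ| ≤ C ∧ |deriv Th σ| ≤ C / (σ * √σ)

/-- MSB: the mass of a sum of packets is bounded. On `(0, 1)`:
`|Ph'| ≤ 2 C + 2 ρ² (N |Θ'| (N (1 - ρ²)) + ...)`, `N = 2^ka, 2^K`, and
`∫_0^1 2 ρ N |Θ' (N (1 - ρ²))| dρ = ∫_0^N |Θ'| ≤ C + 2 C`. (If `ka ≥ K` the sum is empty, `Ms = 0`.) -/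
def MSB_stmt : Prop := ∃ C : ℝ, 0 < C ∧ ∀ ka K : ℕ, Prof (gs ka K) ∧ Ms (gs ka K) ≤ C

/-! ## Linearity -/

/-- LNA: the wave is additive in the profile: `NN` (for `A > 0`; the inner integrand has compact support in `t`,
the inner integral is continuous in `p`), `k1`, `b0`, `b1`, `Bk`, `RR` (RA: summable), `FF`, `ww` (LF with the base
point `i`: finite support at a point). Note that the argument `A` in `k1` is positive for `y > 0`. -/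
def LNA_stmt : Prop := (∀ g h : ℝ → ℝ, Prof g → Prof h → Prof (fun a => g a + h a)) ∧
  Prof (fun _ => 0) ∧ (∀ s x y : ℝ, ww (fun _ => 0) s x y = 0) ∧
  ∀ g h : ℝ → ℝ, Prof g → Prof h → ∀ s x y : ℝ, 0 < y →
    ww (fun a => g a + h a) s x y = ww g s x y + ww h s x y

/-- LNB: the cone function is additive (LNA, WS, JFD and J1 for the integrability). Sums by induction. Every
profile satisfies `Bd 12 B` for some `B`. -/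
def LNB_stmt : Prop := ∀ (T : Finset ℕ) (f : ℕ → ℝ → ℝ), (∀ k, Prof (f k)) →
  Prof (fun a => ∑ k ∈ T, f k a) ∧ ∀ l l' : ℝ, 0 < l → 0 < l' →
    jj (fun a => ∑ k ∈ T, f k a) l l' = ∑ k ∈ T, jj (f k) l l'

/-! ## The kernel -/

/-- the Abel integral of `|g'|` -/
noncomputable def MM (g : ℝ → ℝ) (A : ℝ) : ℝ := ∫ σ in (1 : ℝ)..2, |deriv g σ| / √(σ - A)

/-- MMT: substitution `σ = A (1 + τ²)`, `dσ = 2 A τ dτ = 2 √A √(σ - A) dτ`; `g' = 0` outside `(1, 2)`. Also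
`MM g A = 0` for `A ≥ 2`, `MM` is nonnegative, `∫ |g'| ≤ √2 MM` for `0 ≤ A` (only `σ > A` contribute to `∫_{σ > A} |g'|`). -/
def MMT_stmt : Prop := ∀ g : ℝ → ℝ, Pg g → ∀ A : ℝ, 0 < A →
  IntegrableOn (fun τ => deriv g (A * (1 + τ ^ 2))) (Ioi 0) ∧
  IntervalIntegrable (fun σ => |deriv g σ| / √(σ - A)) volume 1 2 ∧ 0 ≤ MM g A ∧
  (2 ≤ A → MM g A = 0) ∧ √A * ∫ τ in Ioi (0 : ℝ), |deriv g (A * (1 + τ ^ 2))| = 1 / 2 * MM g A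

/-- KFA: the kernel in polar coordinates. `p = ρ cos θ`, `t = ρ sin θ`, `|θ| < π/2`, `0 < ρ < c / cos θ`:
`NN = ½ ∫ [g (A (1 + c² tan² θ)) - g (A (1 - c²))] dθ`, `τ = c tan θ`. (Alternatively differentiate
in `c`.) -/
def KFA_stmt : Prop := ∀ g : ℝ → ℝ, Prof g → ∀ A c : ℝ, 0 < A → 0 < c →
  NN g A c = (∫ τ in Ioi (0 : ℝ), c / (τ ^ 2 + c ^ 2) * g (A * (1 + τ ^ 2))) -
    Real.pi / 2 * g (A * (1 - c ^ 2))

/-- KDA: bounds for `N` by `MM`, where the second term of KFA does not contribute. Let `c > 0`, `A (1 - c²) ≤ 1/2`. Near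
`(A, c)` the second term of KFA is 0. Differentiate KFA under the integral and integrate by parts in `τ`
(`G (τ) = g (A (1 + τ²))`, `G' = 2 A τ g'`, compact support), all `g'` at `σ = A (1 + τ²)`:
`N = - ∫ arctan (τ/c) 2 A τ g' dτ`, `N_c = ∫ (2 A τ² / (τ² + c²)) g' dτ`, `N_cc = - ∫ (4 A τ² c / (τ² + c²)²) g' dτ`,
`A N_A = ∫ (c / (τ² + c²)) σ g' dτ`, `A N_Ac = ∫ ((τ² - c²) / (τ² + c²)²) σ g' dτ`. On the support `1 ≤ σ ≤ 2`, `A ≤ 2`, and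
`τ² + c² = (σ - A (1 - c²)) / A ≥ (σ - 1/2) / A ≥ σ / (2 A)`. All kernels are at most `C √A`:
`A τ ≤ √A √(σ - A) ≤ √2 √A`; `2 A ≤ 2 √2 √A`; `c σ / (τ² + c²) ≤ 2 A c`; and for `N_cc`: if `A ≤ 3/4` then `A τ² = σ - A ≥ 1/4`,
kernel `≤ 4 A c / τ² ≤ 16 A²`; if `A > 3/4` then `c² ≥ 1/3`, kernel `≤ A / c`. Then MMT. For `c < 0`: NO. For `c = 0`: NS
(the derivatives are continuous in `c`; `A ≤ 1/2` then, and the condition holds for `c` near 0 only with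
`A (1 - c²) ≤ A ≤ 1/2`). -/
def KDA_stmt : Prop := ∃ C : ℝ, 0 < C ∧ ∀ g : ℝ → ℝ, Pg g →
  ∀ A c : ℝ, 0 < A → |c| ≤ 1 → A * (1 - c ^ 2) ≤ 1 / 2 →
    |NN g A c| ≤ C * MM g A ∧
    |deriv (fun t => NN g A t) c| ≤ C * MM g A ∧
    |deriv (fun t => deriv (fun u => NN g A u) t) c| ≤ C * MM g A ∧
    A * |deriv (fun a => NN g a c) A| ≤ C * MM g A ∧
    A * |deriv (fun a => deriv (fun t => NN g a t) c) A| ≤ C * MM g A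

/-- KDB: bounds for the kernel (KDA, NS, chain rule as in KB): `k1 = (√y / (5 π r)) N (A, c)`, `c = x / r`,
`∂_x r⁻¹ = -x / r³`, `∂_x c = y² / r³`, `∂_y c = - x y / r³`, `∂_y A = - A / y`, `A (1 - c²) = A y² / r²`. -/
def KDB_stmt : Prop := ∃ C : ℝ, 0 < C ∧ ∀ g : ℝ → ℝ, Pg g → ∀ s x y : ℝ, 0 < y →
  Real.exp (2 * s) / (25 * y) * (y ^ 2 / (x ^ 2 + y ^ 2)) ≤ 1 / 2 →
    let M := C * MM g (Real.exp (2 * s) / (25 * y))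
    let r := √(x ^ 2 + y ^ 2)
    |dX (k1 g) s x y| ≤ M * √y / r ^ 2 ∧ |dY (k1 g) s x y| ≤ M / (√y * r) ∧
    |dX (dX (k1 g)) s x y| ≤ M * √y / r ^ 3 ∧ |dX (dY (k1 g)) s x y| ≤ M / (√y * r ^ 2)

/-- C5B: the alternating sum is bounded by the variation on `[a + 1/5, a + 4/5]`. -/
def C5B_stmt : Prop := ∀ (h h' : ℝ → ℝ) (a : ℝ),
  (∀ t ∈ Icc (a + 1 / 5) (a + 4 / 5), HasDerivAt h (h' t) t) →
  IntervalIntegrable h' volume (a + 1 / 5) (a + 4 / 5) →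
  |c5 (fun r => h (a + r))| ≤ ∫ t in (a + 1 / 5)..(a + 4 / 5), |h' t|

/-! ## The derivative of the wave on the path -/

/-- `B` -/
noncomputable def BB (l l' y : ℝ) : ℝ := y ^ 2 * l' ^ 2 + l ^ 2

/-- `|v₁ i y + v₂|²` -/
noncomputable def nv (v : ℤ × ℤ) (y : ℝ) : ℝ := (v.1 : ℝ) ^ 2 * y ^ 2 + (v.2 : ℝ) ^ 2

/-- `A_v = e^{2 s} / (25 Y_v)` on the path -/
noncomputable def Av (l l' : ℝ) (v : ℤ × ℤ) (y : ℝ) : ℝ := nv v y / (25 * BB l l' y)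

/-- the time -/
noncomputable def ss (l l' y : ℝ) : ℝ := -(1 / 2) * Real.log (qq l l' y)

/-- derivative in `x` at `x = 0` of `k1 (s, X_v (x + i y) + t - X_v (i y), Y_v (x + i y))`: the derivative of `X + i Y` is
`1 / (v₁ z + v₂)² = (v₂² - v₁² y² - 2 i v₁ v₂ y) / nv²` -/
noncomputable def Fv (g : ℝ → ℝ) (v : ℤ × ℤ) (s y t : ℝ) : ℝ :=
  dX (k1 g) s t (y / nv v y) * (((v.2 : ℝ) ^ 2 - (v.1 : ℝ) ^ 2 * y ^ 2) / nv v y ^ 2) +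
  dY (k1 g) s t (y / nv v y) * (-(2 * (v.1 : ℝ) * (v.2 : ℝ) * y) / nv v y ^ 2)

/-- FDX: for `l, l' ≥ 1` the functions `b0`, `b1` and their derivatives vanish on the path: the arguments of `g`
are `e^{2 s} y / nv u y = y² / (B nv u y) < 1` for `u ≠ 0` integral (`nv u ≥ min (1, y²)`, `B ≥ 1 + y²`), for `b0` with
`u = v`, for `b1 (s, X_v + m/5, Y_v)` with `u = 5 cpl v + m v` (MG: `25 ((X_v + m/5)² + Y_v²) = nv u / nv v`; only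
`m = 5 k + 5 r` prime to 5 occur in `c5`). Chain rule for `RR` (RA, BS), RA term by term. -/
def FDX_stmt : Prop := ∀ g : ℝ → ℝ, Prof g → ∀ v ∈ Pv, ∀ l l' y : ℝ, 1 ≤ l → 1 ≤ l' → 0 < y →
  Summable (fun k : ℤ => c5 (fun r => Fv g v (ss l l' y) y (XX v 0 y + k + r))) ∧
  dX (FF g v) (ss l l' y) 0 y = ∑' k : ℤ, c5 (fun r => Fv g v (ss l l' y) y (XX v 0 y + k + r))

/-- the exact term of the vector `e₁` -/
noncomputable def TT (g : ℝ → ℝ) (l l' y : ℝ) (m : ℤ) : ℝ :=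
  1 / (Real.pi * y * √(BB l l' y)) *
    ∫ σ in (1 : ℝ)..2, deriv g σ / √(σ * BB l l' y - 1 - (m : ℝ) ^ 2 * y ^ 2 / 25)

/-- E1I: the exact term. For `v = (m, 5)` put `m0 = gcdA m 5`, i.e. the second entry of `5 cpl v + m0 v` is 0 and the
first is 1. Then `γ_v z + m0 / 5 = z / (5 (m z + 5))`, `-1 / (25 ·) = - 1 / z - m / 5`, so by K01 the function
`k1 (s, X_v (z) + m0/5, Y_v (z))` is `k0 (s, -x / |z|² - m / 5, y / |z|²)`; its `x`-derivative at `i y` is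
`- y⁻² dX k0 (s, - m / 5, 1 / y) = (e^{2 s} / (π y^{3/2})) ∫_ℝ g' (e^{2 s} y (t² + m²/25 + 1/y²)) dt`; substitute
`σ = (y² t² + m² y² / 25 + 1) / B`. Here `X_v (i y) + m0 / 5 = m y² / (5 (25 + m² y²))`. For `v = (m, -5)` the same with
`-1 / z + m / 5` (`TT` is even in `m`). `m m0 ≡ 1` or `-1` mod 5. -/
def E1I_stmt : Prop := ∀ v ∈ Pv, (v.2 = 5 ∨ v.2 = -5) → ∃ m0 : ℤ, chi m0 = chi v.1 ∧
  (∀ y : ℝ, 0 < y → |XX v 0 y + m0 / 5| ≤ y / 50) ∧ 5 * (cpl v).2 + m0 * v.2 = 0 ∧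
  ∀ g : ℝ → ℝ, Pg g → ∀ l l' y : ℝ, 0 < l → 0 < l' → 0 < y →
    Fv g v (ss l l' y) y (XX v 0 y + m0 / 5) = √(qq l l' y) * TT g l l' y v.1

/-- RPB: all the rest is small. `M = C MM g (A_v)`. By KDB at `(s, t, Y)`, `Y = y / nv v y`, if `A Y² / r² ≤ 1/2`
(`r² = t² + Y²`): `|Fv (t)| ≤ 2 M √Y / (y r)`, `|Fv' (t)| ≤ 2 M √Y / (y r²)`. Value of the condition: `A Y² / r² = Y / (25 q r²)`,
`q ≥ 2`, which is at most `1 / (50 q |t|) ≤ 1/10` for `|t| ≥ 1/10`; and for `t = X_v + m/5` it is `y² / (B nv u)` with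
`u = 5 cpl v + m v` (`25 r² = nv u / nv v`, MG), at most `y² / (1 + y²) ≤ 1/2` if `u₂ ≠ 0`; in this case also
`2 M √Y / (y r) = 10 M / (√y √(nv u)) ≤ 10 M / √y`.
Case `v₂ ≠ 0`: then `Y ≤ y`. At most one `k` has `[X_v + k + 1/5, X_v + k + 4/5]` intersecting `(-1/10, 1/10)`. The other
blocks: C5B and `∫_{|t| ≥ 1/10} 2 M √Y / (y t²) dt = 40 M √Y / y ≤ 40 M / √y`. The near block has four terms, each at most
`10 M / √y` if `u₂ ≠ 0`; `u₂ = 0` with `5 ∤ m` (`dt u v = 5` gives `u₁ v₂ = 5`, and `v₂ = ± 1` would give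
`u = (± 5, 0)`, `m ≡ 0` mod 5) only for `v₂ = ± 5`, `m = m0` of E1I, which is in the near block (`|X_v + m0/5| ≤ 1/50`) and has
the coefficient `chi m0` and the value of E1I.
Case `v = (± 1, 0)`: `Y = 1 / y`, `A = y² / (25 B) ≤ 1/50`; all blocks by C5B, `∫_ℝ 2 M √Y / (y r²) dt = 2 π M / √y`. -/
def RPB_stmt : Prop := ∃ C : ℝ, 0 < C ∧ ∀ g : ℝ → ℝ, Pg g → ∀ v ∈ Pv, ∀ l l' y : ℝ,
  1 ≤ l → 1 ≤ l' → 0 < y → y ≤ 1 →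
  |dX (FF g v) (ss l l' y) 0 y -
    (if v.2 = 5 ∨ v.2 = -5 then chi v.1 * (√(qq l l' y) * TT g l l' y v.1) else 0)| ≤
    C * MM g (Av l l' v y) / √y

/-- JDM: the density of the cone function (WS, RPB). `1/√q = √y/√B ≤ √y`. Outside of the box `A_v ≥ 2`
(`nv v y ≥ y² N² ≥ 64 (l + l')² ≥ 50 B`), so `MM = 0`, and `TT g l l' y m = 0` for `|m| > N` (`m² y² / 25 + 1 ≥ 2 B`). The vectors
`(m, 5)` and `(m, -5)` give the same. -/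
def JDM_stmt : Prop := ∃ C : ℝ, 0 < C ∧ ∀ g : ℝ → ℝ, Pg g → ∀ (l l' y : ℝ) (N : ℕ),
  1 ≤ l → 1 ≤ l' → 0 < y → y ≤ 1 → 8 * (l + l') ≤ N * y →
  |1 / √(qq l l' y) * dX (ww g) (ss l l' y) 0 y -
    ∑ m ∈ Finset.Icc (-(N : ℤ)) N, chi m * TT g l l' y m| ≤
    C * ∑ v ∈ Finset.Icc (-(N : ℤ)) N ×ˢ Finset.Icc (-(N : ℤ)) N, MM g (Av l l' v y)

/-! ## The remainder -/

/-- no resonance -/
def NR (δ l l' : ℝ) : Prop := ∀ p1 p2 : ℤ, δ ≤ |p1 - 5 * l'| ∨ δ ≤ |p2 - 5 * l|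

/-- ZPA: an elementary integral (junk values: the integrand is 0 where `γ ≤ α y²`). `α > 0`: if `α ≤ γ/2` then
`γ - α y² ≥ γ/2`; otherwise `∫_0^{√(γ/α)} dy / √(γ - α y²) = π / (2 √α)`. `α ≤ 0 ≤ γ`: `≤ 1/√γ` and `≤ log (1/y0) / √|α|`.
`α, γ < 0`: with `y1² = |γ| / |α|` the integral from `max (y0, y1)` to 1 of `1 / (√|α| √(y² - y1²))` is at most
`log (2 / y0) / √|α|`, and `|γ| < |α|` if it is not 0. -/
def ZPA_stmt : Prop := ∃ C : ℝ, 0 < C ∧ ∀ α γ δ y0 : ℝ, 0 < δ → 0 < y0 → y0 ≤ 1 / 2 →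
  IntervalIntegrable (fun y => 1 / √(γ - α * y ^ 2)) volume y0 1 ∧
  ((4 * δ ≤ |α| ∨ 4 * δ ≤ |γ|) →
    ∫ y in y0..1, 1 / √(γ - α * y ^ 2) ≤ C / √δ * Real.log (1 / y0)) ∧
  (0 < α → ∫ y in y0..1, 1 / √(γ - α * y ^ 2) ≤ 2 / √α)

/-- ZSB: the sum over vectors for one `σ`. `σ - A_v (y) = (γ - α y²) / (25 B)` with `α = p1² - 25 σ l'²`,
`γ = 25 σ l² - p2²`, `v = (p1, p2)`. NR (with `|p1|`, `|p2|`) gives
`|γ| ≥ |5 l - |p2|| (5 l + |p2|) - 25 (σ - 1) l² ≥ 5 δ - δ` or the same for `α`. Nonzero contributions only for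
`|p2| < 8 (l + l')` and `|p1| y0 < 8 (l + l')`. For `|p1| ≤ 10 l'` use the first bound of ZPA, for `|p1| > 10 l'`
`α ≥ p1² / 2`, the integral is at most `3 / |p1|`, and the sum of `1 / |p1|` is at most
`2 + 2 log (8 (l + l') / y0) ≤ C (l + l') log (1 / y0)`. The factor `5 √B ≤ 5 (l + l')`. -/
def ZSB_stmt : Prop := ∃ C : ℝ, 0 < C ∧ ∀ l l' δ y0 σ : ℝ, 1 ≤ l → 1 ≤ l' → 0 < δ → δ ≤ 1 →
  0 < y0 → y0 ≤ 1 / 2 → NR δ l l' → 1 ≤ σ → σ ≤ 2 → 25 * (σ - 1) * (l + l') ^ 2 ≤ δ →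
  ∀ T : Finset (ℤ × ℤ), (∀ v ∈ T, IntervalIntegrable (fun y => 1 / √(σ - Av l l' v y)) volume y0 1) ∧
    ∑ v ∈ T, ∫ y in y0..1, 1 / √(σ - Av l l' v y) ≤ C * (l + l') ^ 4 * Real.log (1 / y0) / √δ

/-- ZSA: the integrated remainder (ZSB, Tonelli; `g' = 0` outside `[1 + κ, 1 + 8 κ]`, `25 (σ - 1) ≤ 200 κ`). -/
def ZSA_stmt : Prop := ∃ C : ℝ, 0 < C ∧ ∀ (κ : ℝ) (g : ℝ → ℝ) (l l' δ y0 : ℝ), Pk κ g →
  1 ≤ l → 1 ≤ l' → 0 < δ → δ ≤ 1 → 0 < y0 → y0 ≤ 1 / 2 → NR δ l l' → 200 * κ * (l + l') ^ 2 ≤ δ →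
  ∀ T : Finset (ℤ × ℤ), IntervalIntegrable (fun y => ∑ v ∈ T, MM g (Av l l' v y)) volume y0 1 ∧
    ∫ y in y0..1, ∑ v ∈ T, MM g (Av l l' v y) ≤
      C * (l + l') ^ 4 * Real.log (1 / y0) / √δ * ∫ σ in (1 : ℝ)..2, |deriv g σ|

/-- the truncated half of the cone function -/
noncomputable def jh (g : ℝ → ℝ) (y0 l l' : ℝ) : ℝ :=
  1 / 2 * ∫ y in y0..1, 1 / √(qq l l' y) * dX (ww g) (ss l l' y) 0 y

/-- JTW: reduction to `y0 ≤ y ≤ 1`: the part `y ≥ 1` is transformed by `y ↦ 1/y` (`qq l l' (1/y) = qq l' l y`, EA: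
`dX w s 0 (1/y) = - y² dX w s 0 y`) into minus the part `y ≤ 1` of the pair `(l', l)`; tail: `1/√q ≤ √y / l`,
`|dX w| ≤ C B / y`. -/
def JTW_stmt : Prop := ∃ C : ℝ, 0 < C ∧ ∀ (g : ℝ → ℝ) (B l l' y0 : ℝ), Prof g → Bd 12 B g →
  1 ≤ l → 1 ≤ l' → 0 < y0 → y0 ≤ 1 → |jj g l l' - (jh g y0 l l' - jh g y0 l' l)| ≤ C * B * √y0

/-! ## The explicit part -/

/-- the kernel of the explicit part -/
noncomputable def Km (σ y0 l l' : ℝ) (m : ℤ) : ℝ :=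
  ∫ y in y0..1, 1 / (y * √(BB l l' y) * √(σ * BB l l' y - 1 - (m : ℝ) ^ 2 * y ^ 2 / 25))

/-- the explicit part -/
noncomputable def Ex (g : ℝ → ℝ) (y0 l l' : ℝ) : ℝ :=
  1 / (2 * Real.pi) * ∫ σ in (1 : ℝ)..2, deriv g σ * ∑' m : ℤ, chi m * Km σ y0 l l' m

/-- EXK: the explicit part is the integral of the exact terms (Fubini). `TT` is continuous in `y > 0` (in the form
`(1/√q) Fv` of E1I for `5 ∤ m`, or as a parametric integral; `|TT| ≤ C_g / (y √B)`,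
`∫_1^2 dσ / √(σ B - c) ≤ 2 √(2 B) / B`). `Km = 0` for `|m| > N`, `σ ≤ 2`. -/
def EXK_stmt : Prop := ∀ g : ℝ → ℝ, Pg g → ∀ (l l' y0 : ℝ) (N : ℕ), 1 ≤ l → 1 ≤ l' →
  0 < y0 → y0 ≤ 1 → 8 * (l + l') ≤ N * y0 →
  (∀ m : ℤ, IntervalIntegrable (fun y => TT g l l' y m) volume y0 1) ∧
  (∀ σ : ℝ, σ ≤ 2 → ∀ m : ℤ, (N : ℤ) < |m| → Km σ y0 l l' m = 0) ∧
  (∀ m : ℤ, IntervalIntegrable (fun σ => deriv g σ * Km σ y0 l l' m) volume 1 2) ∧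
  1 / 2 * ∫ y in y0..1, ∑ m ∈ Finset.Icc (-(N : ℤ)) N, chi m * TT g l l' y m = Ex g y0 l l'

/-- JEA: the cone function is the explicit part up to a remainder (JTW, JDM, ZSA, EXK; `NR` is symmetric). -/
def JEA_stmt : Prop := ∃ C : ℝ, 0 < C ∧ ∀ (κ : ℝ) (g : ℝ → ℝ) (B l l' δ y0 : ℝ), Pk κ g →
  Bd 12 B g → 1 ≤ l → 1 ≤ l' → 0 < δ → δ ≤ 1 → 0 < y0 → y0 ≤ 1 / 2 → NR δ l l' →
  200 * κ * (l + l') ^ 2 ≤ δ →
  |jj g l l' - (Ex g y0 l l' - Ex g y0 l' l)| ≤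
    C * (l + l') ^ 4 * Real.log (1 / y0) / √δ * (∫ σ in (1 : ℝ)..2, |deriv g σ|) + C * B * √y0

/-- `log (√max (u, -t) + √(u + t))`: a primitive of `1 / √(X² + t)` at `X = √u` -/
noncomputable def Lgm (u t : ℝ) : ℝ := Real.log (√(max u (-t)) + √(u + t))

/-- its value at the end `y` -/
noncomputable def LA (σ l l' y : ℝ) (m : ℤ) : ℝ :=
  Lgm ((σ - 1 / l ^ 2) * (l ^ 2 / y ^ 2 + l' ^ 2)) (l' ^ 2 / l ^ 2 - (m : ℝ) ^ 2 / 25)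

/-- KMM: the kernel. With `e = σ - 1/l²`, `X² = e (l² / y² + l'²)`, `τ = l'²/l² - m²/25`:
`σ B - 1 - m² y² / 25 = y² (X² + τ)`, `√B = y X / √e`, `X dX = - e l² dy / y³`, so the integral is
`(l² √e)⁻¹ ∫ dX / √(X² + τ)` over `X² + τ > 0`. (Primitive `log (X + √(X² + τ))`; at `X² = - τ` it is
`log √(-τ)`.) -/
def KMM_stmt : Prop := ∀ (σ y0 l l' : ℝ) (m : ℤ), 1 < σ → 0 < y0 → y0 ≤ 1 → 1 ≤ l → 1 ≤ l' →
  Km σ y0 l l' m = 1 / (l ^ 2 * √(σ - 1 / l ^ 2)) * (LA σ l l' y0 m - LA σ l l' 1 m)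

/-- USM: the sum over `m` at the small end. `W = (σ - 1/l²) l² / y²`, `D = l + l1 + l2`, `n = m²/25`, `λ = l'²`, `e = σ - 1/l²`:
`LA = log (√max (a, n - λ/l²) + √b)`, `a = W + e λ`, `b = W + σ λ - n`. The assumption is `D^8 ≤ W`.
(1) `√n ≤ √W - W^{1/4}`: `b ≥ W^{3/4}`, the derivative in `λ` is at most `2 / (√W √b)`; at most `10 √W + 1` values
of `m`: sum `≤ C D² W^{-3/8}`.
(2) `|√n - √W| < W^{1/4}`: the two first square roots are `≥ √W` and differ by at most `D²/√W`, the second ones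
differ by at most `√(2 D²)`: the logarithms differ by at most `3 D / √W`; at most `22 W^{1/4}` values of `m`.
(3) `√n ≥ √W + W^{1/4}`: `n - W ≥ 2 W^{3/4} ≥ σ λ`, `b ≤ 0`: `½ log (n - λ/l²)`, difference `≤ D²/n`. -/
def USM_stmt : Prop := ∃ C : ℝ, 0 < C ∧ ∀ σ l l1 l2 y W : ℝ, 1 < σ → σ ≤ 2 → 1 ≤ l → 1 ≤ l1 → 1 ≤ l2 →
  0 < y → W = (σ - 1 / l ^ 2) * l ^ 2 / y ^ 2 → (l + l1 + l2) ^ 8 ≤ W →
  Summable (fun m : ℤ => |LA σ l l1 y m - LA σ l l2 y m|) ∧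
  ∑' m : ℤ, |LA σ l l1 y m - LA σ l l2 y m| ≤ C * (l + l1 + l2) ^ 2 / √(√W)

/-- VSM: the same at `y = 1` for `l ≥ 3/2`: `W = (σ - 1/l²) l² ≥ 5/4`. For `n ≤ 4 D²` both logarithms are in
`[0, 5 D]` (at most `21 D` values of `m`), for `n > 4 D²` the difference is at most `D²/n`. -/
def VSM_stmt : Prop := ∃ C : ℝ, 0 < C ∧ ∀ σ l l1 l2 : ℝ, 1 < σ → σ ≤ 2 → 3 / 2 ≤ l → 1 ≤ l1 → 1 ≤ l2 →
  Summable (fun m : ℤ => |LA σ l l1 1 m - LA σ l l2 1 m|) ∧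
  ∑' m : ℤ, |LA σ l l1 1 m - LA σ l l2 1 m| ≤ C * (l + l1 + l2) ^ 2

/-- the main term -/
noncomputable def L0 (l1 l2 : ℝ) : ℝ :=
  ∑' m : ℤ, chi m * (1 / 2 * Real.log ((l1 ^ 2 - (m : ℝ) ^ 2 / 25) / (l2 ^ 2 - (m : ℝ) ^ 2 / 25)))

/-- VSN: `l = 1`, `y = 1`. `u = (σ - 1) (1 + l'²)`, `τ = l'² - m²/25`, `|τ| ≥ δ/5` (`|5 l' - |m|| (5 l' + |m|) / 25`), `u < δ/5`.
`τ < 0`: `Lgm u τ = ½ log |τ|` exactly. `τ > 0` (at most `10 l' + 1` values of `m`): `Lgm u τ - ½ log τ` is in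
`[0, √(u/τ)]` (`arsinh`). -/
def VSN_stmt : Prop := ∃ C : ℝ, 0 < C ∧ ∀ σ l1 l2 δ : ℝ, 1 < σ → σ ≤ 2 → 1 ≤ l1 → 1 ≤ l2 → 0 < δ → δ ≤ 1 →
  (∀ p : ℤ, δ ≤ |p - 5 * l1| ∧ δ ≤ |p - 5 * l2|) → 5 * (σ - 1) * (1 + l1 + l2) ^ 2 < δ →
  Summable (fun m : ℤ => |LA σ 1 l1 1 m - LA σ 1 l2 1 m|) ∧
  |(∑' m : ℤ, chi m * (LA σ 1 l1 1 m - LA σ 1 l2 1 m)) - L0 l1 l2| ≤
    C * (1 + l1 + l2) ^ 2 * √((σ - 1) / δ)

/-- L0B: the main term for close values: `|log |τ1| - log |τ2|| ≤ ||τ1| - |τ2|| / min ≤ 5 |l1² - l2²| / δ` for `|m| ≤ 10 (l1 + l2)`,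
and `min ≥ (3/4) m²/25` for larger `m`. Summability too. -/
def L0B_stmt : Prop := ∃ C : ℝ, 0 < C ∧ ∀ l1 l2 δ : ℝ, 1 ≤ l1 → 1 ≤ l2 → 0 < δ → δ ≤ 1 →
  (∀ p : ℤ, δ ≤ |p - 5 * l1| ∧ δ ≤ |p - 5 * l2|) →
  Summable (fun m : ℤ =>
    |Real.log ((l1 ^ 2 - (m : ℝ) ^ 2 / 25) / (l2 ^ 2 - (m : ℝ) ^ 2 / 25))|) ∧
  |L0 l1 l2| ≤ C * (l1 + l2) ^ 2 * |l1 - l2| / δ

/-- L0N: the main term of the metric is not zero (value `-1.7129`). It is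
`- Σ_{m ≥ 1} chi m log |(4 m² - 225) / (4 m² - 289)|`. The partial sum over `m ≤ 9` is `log 5.233`, and every block
`m = 5 j + 1, ..., 5 j + 4`, `j ≥ 2`, is nonnegative: for `m ≥ 11` the function
`f (m) = log ((4 m² - 225) / (4 m² - 289))` is positive and decreasing and convex, so
`f (5j+1) - f (5j+2) ≥ f (5j+3) - f (5j+4)`. -/
def L0N_stmt : Prop := L0 (17 / 10) (3 / 2) ≤ -Real.log 5

/-- EDA: `l ≥ 3/2` (KMM, USM, VSM; `σ - 1/l² ≥ 5/9`, `W ≥ 1/y0² ≥ D^8`). The sums over `m` in `Ex` are finite sums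
(EXK), so they are differences of the convergent sums of USM and VSM. -/
def EDA_stmt : Prop := ∃ C : ℝ, 0 < C ∧ ∀ (g : ℝ → ℝ) (l l1 l2 y0 : ℝ), Pg g → 3 / 2 ≤ l → 1 ≤ l1 →
  1 ≤ l2 → 0 < y0 → (l + l1 + l2) ^ 4 * y0 ≤ 1 →
  |Ex g y0 l l1 - Ex g y0 l l2| ≤ C * (l + l1 + l2) ^ 2 * ∫ σ in (1 : ℝ)..2, |deriv g σ|

/-- EDB: `l = 1` (KMM, USM, VSN). `W = (σ - 1) / y0² ≥ κ / y0²` on the support of `g'`. -/
def EDB_stmt : Prop := ∃ C : ℝ, 0 < C ∧ ∀ (κ : ℝ) (g : ℝ → ℝ) (l1 l2 δ y0 : ℝ), Pk κ g → 1 ≤ l1 →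
  1 ≤ l2 → 0 < δ → δ ≤ 1 → (∀ p : ℤ, δ ≤ |p - 5 * l1| ∧ δ ≤ |p - 5 * l2|) →
  50 * κ * (1 + l1 + l2) ^ 2 ≤ δ → 0 < y0 → y0 ≤ 1 → (1 + l1 + l2) ^ 8 * y0 ^ 2 ≤ κ →
  |Ex g y0 1 l1 - Ex g y0 1 l2 +
    1 / (2 * Real.pi) * (∫ σ in (1 : ℝ)..2, deriv g σ / √(σ - 1)) * L0 l1 l2| ≤
    C * (1 + l1 + l2) ^ 2 * (1 / √δ * (∫ σ in (1 : ℝ)..2, |deriv g σ|) +
      √(√(y0 ^ 2 / κ)) * ∫ σ in (1 : ℝ)..2, |deriv g σ| / √(σ - 1))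

/-! ## Packets in the cone function -/

/-- the cutoff parameter of the packet -/
noncomputable def yk (k : ℕ) : ℝ := 1 / 2 ^ (30 * (k + 1))

/-- PKJ: JEA for packets (PKA, PKB, PKC): `(k + 1) 2^{-k/2} ≤ C 2^{-k/4}`, `2^{12 k} √yk ≤ 1/2^k`. -/
def PKJ_stmt : Prop := ∃ C : ℝ, 0 < C ∧ ∀ (k : ℕ) (l l' δ : ℝ), 1 ≤ l → 1 ≤ l' → 0 < δ → δ ≤ 1 →
  NR δ l l' → 25 * (l + l') ^ 2 ≤ δ * 2 ^ k →
  |jj (pk k) l l' - (Ex (pk k) (yk k) l l' - Ex (pk k) (yk k) l' l)| ≤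
    C * (l + l') ^ 4 / √δ / √(√(2 ^ k))

/-- PKE: EDA for packets. -/
def PKE_stmt : Prop := ∃ C : ℝ, 0 < C ∧ ∀ (k : ℕ) (l l1 l2 : ℝ), 3 / 2 ≤ l → 1 ≤ l1 → 1 ≤ l2 →
  (l + l1 + l2) ^ 2 ≤ 2 ^ k →
  |Ex (pk k) (yk k) l l1 - Ex (pk k) (yk k) l l2| ≤ C * (l + l1 + l2) ^ 2 / √(2 ^ k)

/-- PKF: EDB for packets, with the moment of PKD. -/
def PKF_stmt : Prop := ∃ C : ℝ, 0 < C ∧ ∀ (k : ℕ) (l1 l2 δ : ℝ), 1 ≤ l1 → 1 ≤ l2 → 0 < δ → δ ≤ 1 →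
  (∀ p : ℤ, δ ≤ |p - 5 * l1| ∧ δ ≤ |p - 5 * l2|) → 100 * (1 + l1 + l2) ^ 2 ≤ δ * 2 ^ k →
  |Ex (pk k) (yk k) 1 l1 - Ex (pk k) (yk k) 1 l2 + Real.log 2 / (4 * Real.pi) * L0 l1 l2| ≤
    C * (1 + l1 + l2) ^ 2 / √δ / √(2 ^ k)

/-- GJR: the root (`δ = 1/2`): `jj (1, m) + jj (m, b) - jj (1, b)` with `b = 3/2`, `m = 17/10` is
`[Ex (1, m) - Ex (1, b)] + [Ex (m, b) - Ex (m, 1)] + [Ex (b, 1) - Ex (b, m)]` up to the remainders of PKJ; PKF, PKE. -/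
def GJR_stmt : Prop := ∃ C : ℝ, 0 < C ∧ ∀ k : ℕ, 12 ≤ k →
  |jj (pk k) 1 (17 / 10) + jj (pk k) (17 / 10) (3 / 2) - jj (pk k) 1 (3 / 2) +
    Real.log 2 / (4 * Real.pi) * L0 (17 / 10) (3 / 2)| ≤ C / √(√(2 ^ k))

/-- the lengths of a node (in units of `Λ`) which is not the root -/
def NL (a b m : ℝ) : Prop := (a = 1 ∨ 3 / 2 ≤ a) ∧ (b = 1 ∨ 3 / 2 ≤ b) ∧ ¬(a = 1 ∧ b = 1) ∧
  12 / 5 ≤ m ∧ m ≤ a + b

/-- GJF: fine bound. By J5 with `S = a + b`: `jj (a, m) + jj (m, b) - jj (a, b) =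
[jj (a, m) - jj (a, S)] + [jj (m, b) - jj (S, b)]`, which is
`[Ex (a, m) - Ex (a, S)] + [Ex (b, S) - Ex (b, m)] + [Ex (m, b) - Ex (m, a)] + [Ex (S, a) - Ex (S, b)]` up to the
remainders of PKJ. The pairs satisfy `NR (δ/4)`: if `5 a` and `5 m` (or `5 S`) are within `δ/4` of integers then `5 b` is
within `δ/2 + 5 (a + b - m) ≤ δ` of an integer, and `5 a` too. PKE if the first argument is `≥ 3/2`, PKF and L0B if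
it is 1 (then `NR (δ/4)` with `p = 5` gives the condition for `5 m`, `5 S`). -/
def GJF_stmt : Prop := ∃ C : ℝ, 0 < C ∧ ∀ (k : ℕ) (a b m δ : ℝ), NL a b m → 0 < δ → δ ≤ 1 →
  NR δ a b → 10 * (a + b - m) ≤ δ → 10000 * (a + b) ^ 2 ≤ δ * 2 ^ k →
  |jj (pk k) a m + jj (pk k) m b - jj (pk k) a b| ≤
    C * (a + b) ^ 4 / √δ / √(√(2 ^ k)) + C * (a + b) ^ 2 * (a + b - m) / δ

/-- GJC: coarse bound (J5, JB, PKB). -/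
def GJC_stmt : Prop := ∃ C : ℝ, 0 < C ∧ ∀ (k : ℕ) (a b m : ℝ), 1 ≤ a → 1 ≤ b → 1 ≤ m → m ≤ a + b →
  |jj (pk k) a m + jj (pk k) m b - jj (pk k) a b| ≤ C * 2 ^ (12 * k) * (a + b - m)

/-- NOD: a bound uniform in `k`. If `δ 2^k < 10000 (a + b)²` use GJC. Otherwise, if `2^{12 k} ≤ e^{t/2}` use GJC, else
`√√(2^k) ≥ e^{t/96}` and GJF. -/
def NOD_stmt : Prop := ∃ C : ℝ, 0 < C ∧ ∀ (k : ℕ) (a b m δ t : ℝ), NL a b m → 0 < δ → δ ≤ 1 →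
  NR δ a b → 10 * (a + b - m) ≤ δ → 0 ≤ t → a + b - m ≤ Real.exp (-t) →
  |jj (pk k) a m + jj (pk k) m b - jj (pk k) a b| ≤
    C * (a + b) ^ 24 / δ ^ 12 * Real.exp (-t / 96)

/-! ## The tree -/

/-- the metric -/
noncomputable def PP (Λ : ℝ) : Tri :=
  (2 * Real.cosh (Λ / 2), 2 * Real.cosh (3 * Λ / 4), 2 * Real.cosh (17 * Λ / 20))

/-- the properties of the nodes of depth `n` other than the root `P` -/
def GQ (Λ : ℝ) (n : ℕ) (Q : Tri) : Prop := Gr Q ∧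
  NL (len Q.1 / Λ) (len Q.2.1 / Λ) (len Q.2.2 / Λ) ∧
  3 / 2 + 9 / 10 * n ≤ len Q.2.2 / Λ ∧
  len Q.1 / Λ + len Q.2.1 / Λ - len Q.2.2 / Λ ≤ Real.exp (-(Λ * (len Q.2.2 / Λ)) / 10) ∧
  10 * (len Q.1 / Λ + len Q.2.1 / Λ - len Q.2.2 / Λ) ≤ (1 / 4) ^ (n + 1) ∧
  NR ((1 / 4) ^ (n + 1)) (len Q.1 / Λ) (len Q.2.1 / Λ)

/-- TRS: the induction step. Let the child be `(x, z, w)`, `w = x z - y`, `L = len x`, `M = len z`. Growing: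
`w ≥ x z / 2 = cosh ((L+M)/2) + cosh ((L-M)/2)`. `main_ident`:
`(2 cosh ((L+M)/2) - w) (w - 2 cosh ((L-M)/2)) = kap + 4`, and `w - 2 cosh ((L-M)/2) ≥ 2 sinh (L/2) sinh (M/2)`
`≥ (2/5) e^{(L+M)/2}`. So `2 cosh ((L+M)/2) - w ≤ 40 e^{21 Λ/10 - (L+M)/2}` and, by convexity of `cosh`,
`L + M - len w ≤ C e^{21 Λ/10 - (L+M)}`. With `L + M ≥ (17/5) Λ`: `(L + M) - 21 Λ/10 ≥ (L + M)/10 + (3/10) Λ ≥ len w / 10 + ...`.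
Nonresonance: if `5 a`, `5 m` are within `δ/4` of integers then `5 b` is within `δ/2 + 5 gap ≤ δ`. -/
def TRS_stmt : Prop := ∃ Λ0 : ℝ, 1 ≤ Λ0 ∧ ∀ Λ : ℝ, Λ0 ≤ Λ → ∀ (n : ℕ) (Q : Tri),
  kap Q ≤ 8 * Real.exp (21 * Λ / 10) → GQ Λ n Q → GQ Λ (n + 1) (Lm Q) ∧ GQ Λ (n + 1) (Rm Q)

/-- TRB: the base. Lengths of the root: `Λ (1, 3/2, 17/10)`. Children of `P`: lengths about `(1, 17/10, 27/10)`,
`(17/10, 3/2, 16/5)`; `Tw P`: `(3/2, 1, 5/2)`. E.g. for `Tw P`: `x y - z = 2 cosh (5Λ/4) + 2 cosh (Λ/4) - 2 cosh (17Λ/20)`, so the gap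
is about `2 e^{-2Λ/5}`, less than `Λ e^{-Λ/4}`; the others: `2 e^{-3Λ/5}`, `2 e^{-11Λ/10}`. NR with `1/2` (`5 · 3/2 = 15/2`,
`5 · 17/10 = 17/2`). `kap P ≤ x y z ≤ 8 e^{21Λ/10}`, `kap P > 0` for large `Λ`. -/
def TRB_stmt : Prop := ∃ Λ0 : ℝ, 1 ≤ Λ0 ∧ ∀ Λ : ℝ, Λ0 ≤ Λ → Adm (PP Λ) ∧
  kap (PP Λ) ≤ 8 * Real.exp (21 * Λ / 10) ∧
  len (PP Λ).1 = Λ ∧ len (PP Λ).2.1 = 3 / 2 * Λ ∧ len (PP Λ).2.2 = 17 / 10 * Λ ∧
  GQ Λ 1 (Lm (PP Λ)) ∧ GQ Λ 1 (Rm (PP Λ)) ∧ GQ Λ 0 (Tw (PP Λ))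

/-- TRI: all nodes (TRS, TRB, `kap_Lm`, `kap_Rm`; induction over words from the end: `desc (w ++ [c])` is a child of
`desc w`). -/
def TRI_stmt : Prop := ∃ Λ0 : ℝ, 1 ≤ Λ0 ∧ ∀ Λ : ℝ, Λ0 ≤ Λ → Adm (PP Λ) ∧
  len (PP Λ).1 = Λ ∧ len (PP Λ).2.1 = 3 / 2 * Λ ∧ len (PP Λ).2.2 = 17 / 10 * Λ ∧
  (∀ w : List Bool, w ≠ [] → GQ Λ w.length (desc w (PP Λ))) ∧
  ∀ w : List Bool, GQ Λ w.length (desc w (Tw (PP Λ)))

/-- NDB: the contribution of a node (NOD with `δ = (1/4)^{n+1}`, `t = Λ m / 10`; `a + b ≤ m + 1 ≤ 2 m`;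
`m^24 e^{-Λ m / 960} ≤ C e^{-Λ m / 1000}`, `m ≥ 3/2 + 9n/10`). -/
def NDB_stmt : Prop := ∃ C : ℝ, 0 < C ∧ ∀ (Λ : ℝ) (k n : ℕ) (Q : Tri), 1 ≤ Λ → GQ Λ n Q →
  |GJ (pk k) Λ Q| ≤ C * 4 ^ (12 * n) * Real.exp (-(Λ * (15 + 9 * n) / 10000))

/-- LSM: sums over words. -/
def LSM_stmt : Prop := ∀ q : ℝ, 0 ≤ q → q ≤ 1 / 4 → Summable (fun w : List Bool => q ^ w.length) ∧
  ∑' w : List Bool, q ^ w.length ≤ 2

/-- AZZ: the asymptotics (`AZ_stmt` of SpecS). `P = PP Λ`, `R = Λ`, `g = gs 12 K` (MSB: `Ms g ≤ C`). By LNB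
`GJ g Λ Q = Σ_{12 ≤ k < K} GJ (pk k) Λ Q`. The root: GJR, L0N: at least `(K - 12) c0 - C1`, `c0 = log 2 log 5 / (4 π)`,
`C1 = Σ_k C 2^{-k/4}`. The other words of both trees: NDB with `q = 4^12 e^{-9Λ/10000} ≤ 1/4` and LSM:
`≤ (K - 12) 4 C e^{-15Λ/10000} ≤ (K - 12) c0 / 2` for one large `Λ`. `K → ∞`. -/
def AZZ_stmt : Prop := AZ_stmt

end SF
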