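import Mathlib
import Pool.Agent.helper1.SF.SpecA

/-! Module AZZ of project SF (MP_d52931_gt): the wave sum of one metric is unbounded for profiles of
bounded mass. -/

set_option autoImplicit false

namespace SF

open Pool.Agent.helper72.Sq MeasureTheory Set Filter Topology

lemma AZZ_lin (hPKA : PKA_stmt) (hLNB : LNB_stmt) (ka K : ℕ) {Λ : ℝ} (hΛ : 0 < Λ) {Q : Tri}
    (h1 : 0 < len Q.1) (h2 : 0 < len Q.2.1) (h3 : 0 < len Q.2.2) :
    GJ (gs ka K) Λ Q = ∑ k ∈ Finset.Ico ka K, GJ (pk k) Λ Q := by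
  have hP : ∀ k, Prof (pk k) := fun k => (hPKA.2.2 k).1
  have h := (hLNB (Finset.Ico ka K) pk hP).2
  have e1 : 0 < len Q.1 / Λ := div_pos h1 hΛ
  have e2 : 0 < len Q.2.1 / Λ := div_pos h2 hΛ
  have e3 : 0 < len Q.2.2 / Λ := div_pos h3 hΛ
  have eg : gs ka K = fun a => ∑ k ∈ Finset.Ico ka K, pk k a := rfl
  unfold GJ
  rw [eg, h _ _ e1 e3, h _ _ e3 e2, h _ _ e1 e2, ← Finset.sum_add_distrib, ← Finset.sum_sub_distrib]

theorem AZZ (hMSB : MSB_stmt) (hLNB : LNB_stmt) (hPKA : PKA_stmt) (hGJR : GJR_stmt)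
    (hL0N : L0N_stmt) (hNDB : NDB_stmt) (hTRI : TRI_stmt) (hLSM : LSM_stmt) : AZ_stmt := by
  obtain ⟨CM, hCM, hM⟩ := hMSB
  obtain ⟨CR, hCR, hR⟩ := hGJR
  obtain ⟨CN, hCN, hN⟩ := hNDB
  obtain ⟨Λ0, hΛ0, hT⟩ := hTRI
  have hl2 : 0 < Real.log 2 := Real.log_pos (by norm_num)
  have hl5 : 0 < Real.log 5 := Real.log_pos (by norm_num)
  set c0 : ℝ := Real.log 2 / (4 * Real.pi) * Real.log 5 with hc0
  have hc0p : 0 < c0 := by positivity
  -- choice of Λ
  obtain ⟨Λ, hΛ1, hΛ2, hΛ3⟩ : ∃ Λ : ℝ, Λ0 ≤ Λ ∧ 4 ^ 12 * Real.exp (-(9 * Λ / 10000)) ≤ 1 / 4 ∧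
      4 * (CN * Real.exp (-(15 * Λ / 10000))) ≤ c0 / 2 := by
    have t1 : Tendsto (fun Λ : ℝ => 4 ^ 12 * Real.exp (-(9 * Λ / 10000))) atTop (𝓝 (4 ^ 12 * 0)) := by
      apply Tendsto.const_mul
      apply Real.tendsto_exp_neg_atTop_nhds_zero.comp
      apply Tendsto.atTop_div_const (by norm_num)
      exact Tendsto.const_mul_atTop (by norm_num) tendsto_id
    have t2 : Tendsto (fun Λ : ℝ => 4 * (CN * Real.exp (-(15 * Λ / 10000)))) atTop
        (𝓝 (4 * (CN * 0))) := by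
      apply Tendsto.const_mul
      apply Tendsto.const_mul
      apply Real.tendsto_exp_neg_atTop_nhds_zero.comp
      apply Tendsto.atTop_div_const (by norm_num)
      exact Tendsto.const_mul_atTop (by norm_num) tendsto_id
    have e1 := t1.eventually (ge_mem_nhds (show (4 : ℝ) ^ 12 * 0 < 1 / 4 by norm_num))
    have e2 := t2.eventually (ge_mem_nhds (show 4 * (CN * 0) < c0 / 2 by
      rw [mul_zero, mul_zero]; positivity))
    obtain ⟨Λ, h1, h2, h3⟩ := ((eventually_ge_atTop Λ0).and (e1.and e2)).exists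
    exact ⟨Λ, h1, h2, h3⟩
  have hΛge1 : 1 ≤ Λ := hΛ0.trans hΛ1
  have hΛp : 0 < Λ := by linarith
  obtain ⟨hAdm, hx, hy, hz, hW, hWT⟩ := hT Λ hΛ1
  refine ⟨PP Λ, Λ, hAdm, hΛge1, ?_⟩
  set q : ℝ := 4 ^ 12 * Real.exp (-(9 * Λ / 10000)) with hq
  have hq0 : 0 ≤ q := by positivity
  obtain ⟨hqs, hq2⟩ := hLSM q hq0 hΛ2
  set e15 : ℝ := Real.exp (-(15 * Λ / 10000)) with he15
  have he15p : 0 < e15 := Real.exp_pos _
  -- bound at a node
  have node : ∀ (n k : ℕ) (Q : Tri), GQ Λ n Q → |GJ (pk k) Λ Q| ≤ CN * e15 * q ^ n := by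
    intro n k Q hQ
    refine (hN Λ k n Q hΛge1 hQ).trans (le_of_eq ?_)
    have : Real.exp (-(Λ * (15 + 9 * n) / 10000)) = e15 * Real.exp (-(9 * Λ / 10000)) ^ n := by
      rw [← Real.exp_nat_mul, he15, ← Real.exp_add]
      congr 1
      ring
    rw [this, hq, mul_pow, ← pow_mul]
    ring
  have hGQpos : ∀ (n : ℕ) (Q : Tri), GQ Λ n Q → 0 < len Q.1 ∧ 0 < len Q.2.1 ∧ 0 < len Q.2.2 := by
    intro n Q hQ
    exact ⟨len_pos hQ.1.x2, len_pos hQ.1.y2, len_pos hQ.1.z2⟩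
  -- choice of the first packet
  obtain ⟨ka, hka12, hka⟩ : ∃ ka : ℕ, 12 ≤ ka ∧ ∀ k : ℕ, ka ≤ k → CR / √(√(2 ^ k)) ≤ c0 / 4 := by
    obtain ⟨n, hn⟩ := pow_unbounded_of_one_lt ((4 * CR / c0) ^ 4) (one_lt_two)
    refine ⟨max 12 n, le_max_left _ _, ?_⟩
    intro k hk
    have h1 : (4 * CR / c0) ^ 4 ≤ 2 ^ k := hn.le.trans
      (pow_le_pow_right₀ (by norm_num) ((le_max_right _ _).trans hk))
    have h2 : 4 * CR / c0 ≤ √(√(2 ^ k)) := by
      apply Real.le_sqrt_of_sq_le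
      apply Real.le_sqrt_of_sq_le
      calc ((4 * CR / c0) ^ 2) ^ 2 = (4 * CR / c0) ^ 4 := by ring
        _ ≤ 2 ^ k := h1
    have h3 : 0 < √(√(2 ^ k) : ℝ) := by positivity
    rw [div_le_iff₀ h3]
    rw [div_le_iff₀ hc0p] at h2
    nlinarith
  -- the root
  have root : ∀ k : ℕ, ka ≤ k → 3 / 4 * c0 ≤ GJ (pk k) Λ (PP Λ) := by
    intro k hk
    have h1 := hR k (hka12.trans hk)
    have h2 := hka k hk
    have e1 : len (PP Λ).1 / Λ = 1 := by rw [hx]; field_simp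
    have e2 : len (PP Λ).2.1 / Λ = 3 / 2 := by rw [hy]; field_simp
    have e3 : len (PP Λ).2.2 / Λ = 17 / 10 := by rw [hz]; field_simp
    unfold GJ
    rw [e1, e2, e3]
    have h3 : Real.log 2 / (4 * Real.pi) * L0 (17 / 10) (3 / 2) ≤ -c0 := by
      have : Real.log 2 / (4 * Real.pi) * L0 (17 / 10) (3 / 2) ≤
          Real.log 2 / (4 * Real.pi) * (-Real.log 5) :=
        mul_le_mul_of_nonneg_left hL0N (by positivity)
      rw [hc0]
      linarith
    have h4 := (abs_le.1 h1).1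
    linarith
  intro C
  -- choice of the number of packets
  obtain ⟨n, hn⟩ := exists_nat_gt (|C| * CM / (c0 / 4))
  rw [div_lt_iff₀ (by positivity)] at hn
  set K := ka + n with hK
  have hcard : ((Finset.Ico ka K).card : ℝ) = n := by
    rw [Nat.card_Ico, hK]; simp
  obtain ⟨hProf, hMs⟩ := hM ka K
  refine ⟨gs ka K, hProf, ?_⟩
  have hMs0 : 0 ≤ Ms (gs ka K) := by
    unfold Ms
    apply intervalIntegral.integral_nonneg (by norm_num)
    intro u hu
    exact mul_nonneg hu.1 (abs_nonneg _)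
  have hCMs : C * Ms (gs ka K) ≤ |C| * CM :=
    (mul_le_mul_of_nonneg_right (le_abs_self C) hMs0).trans
      (mul_le_mul_of_nonneg_left hMs (abs_nonneg C))
  set b : ℝ := n * (CN * e15) with hb
  have hb0 : 0 ≤ b := by positivity
  have nodeK : ∀ (j : ℕ) (Q : Tri), GQ Λ j Q → |GJ (gs ka K) Λ Q| ≤ b * q ^ j := by
    intro j Q hQ
    obtain ⟨p1, p2, p3⟩ := hGQpos j Q hQ
    rw [AZZ_lin hPKA hLNB ka K hΛp p1 p2 p3]
    refine (Finset.abs_sum_le_sum_abs _ _).trans ?_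
    refine (Finset.sum_le_card_nsmul _ _ (CN * e15 * q ^ j) (fun k _ => node j k Q hQ)).trans ?_
    rw [nsmul_eq_mul, hcard, hb]
    exact le_of_eq (by ring)
  have hroot : n * (3 / 4 * c0) ≤ GJ (gs ka K) Λ (PP Λ) := by
    rw [AZZ_lin hPKA hLNB ka K hΛp (by rw [hx]; positivity) (by rw [hy]; positivity)
      (by rw [hz]; positivity)]
    have h1 := Finset.card_nsmul_le_sum (Finset.Ico ka K) (fun k => GJ (pk k) Λ (PP Λ)) (3 / 4 * c0)
      (fun k hk => root k (Finset.mem_Ico.1 hk).1)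
    rw [nsmul_eq_mul, hcard] at h1
    exact h1
  -- the two sums
  set F : List Bool → ℝ := fun w => GJ (gs ka K) Λ (desc w (PP Λ)) with hF
  set G : List Bool → ℝ := fun w => GJ (gs ka K) Λ (desc w (Tw (PP Λ))) with hG
  have hF0 : F [] = GJ (gs ka K) Λ (PP Λ) := rfl
  have hFb : ∀ w, w ≠ [] → |F w| ≤ b * q ^ w.length := fun w hw => nodeK _ _ (hW w hw)
  have hGb : ∀ w, |G w| ≤ b * q ^ w.length := fun w => nodeK _ _ (hWT w)
  have hFs : Summable F := by
    apply Summable.of_norm_bounded ((hqs.mul_left (|F []| + b)))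
    intro w
    rw [Real.norm_eq_abs]
    rcases eq_or_ne w [] with h | h
    · subst h
      simp only [List.length_nil, pow_zero, mul_one]
      linarith
    · refine (hFb w h).trans ?_
      apply mul_le_mul_of_nonneg_right _ (by positivity)
      linarith [abs_nonneg (F [])]
  have hqb := hqs.mul_left b
  have hqb2 : ∑' w : List Bool, b * q ^ w.length ≤ 2 * b := by
    rw [tsum_mul_left]
    nlinarith
  have hF1 : |∑' w : List Bool, (if w = [] then 0 else F w)| ≤ 2 * b := by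
    refine le_trans ?_ hqb2
    have hle : ∀ w : List Bool, ‖(if w = [] then 0 else F w)‖ ≤ b * q ^ w.length := by
      intro w
      rcases eq_or_ne w [] with h | h
      · simp only [h, if_true, norm_zero]
        positivity
      · simp only [h, if_false]
        exact hFb w h
    exact tsum_of_norm_bounded hqb.hasSum hle
  have hG1 : |∑' w : List Bool, G w| ≤ 2 * b := by
    refine le_trans ?_ hqb2
    have hGb' : ∀ w : List Bool, ‖G w‖ ≤ b * q ^ w.length := hGb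
    exact tsum_of_norm_bounded hqb.hasSum hGb'
  have hSw : Sw (gs ka K) (PP Λ) Λ = (F [] + ∑' w : List Bool, (if w = [] then 0 else F w)) +
      ∑' w : List Bool, G w := by
    unfold Sw
    have := hFs.tsum_eq_add_tsum_ite []
    rw [← this]
  have h4b : 4 * b ≤ n * (c0 / 2) := by
    rw [hb]
    have hn0 : (0 : ℝ) ≤ n := Nat.cast_nonneg n
    have := mul_le_mul_of_nonneg_left hΛ3 hn0
    linarith
  have hlow : n * (c0 / 4) ≤ Sw (gs ka K) (PP Λ) Λ := by
    rw [hSw, hF0]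
    have h5 := (abs_le.1 hF1).1
    have h6 := (abs_le.1 hG1).1
    linarith
  calc C * Ms (gs ka K) ≤ |C| * CM := hCMs
    _ < n * (c0 / 4) := hn
    _ ≤ Sw (gs ka K) (PP Λ) Λ := hlow
    _ ≤ |Sw (gs ka K) (PP Λ) Λ| := le_abs_self _

end SF
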