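import Mathlib
import Pool.Agent.helper1.SF.SpecA

/-! Module C5B of project SF (MP_d52931_gt). -/

set_option autoImplicit false

namespace SF

open MeasureTheory Set intervalIntegral

theorem C5B : C5B_stmt := by
  intro h h' a hd hi
  have hle : ∀ p q : ℝ, a + 1 / 5 ≤ p → p ≤ q → q ≤ a + 4 / 5 →
      IntervalIntegrable h' volume p q := by
    intro p q hp hpq hq
    refine hi.mono_set ?_
    rw [uIcc_of_le hpq, uIcc_of_le (by linarith)]
    exact Icc_subset_Icc hp hq
  have hf : ∀ p q : ℝ, a + 1 / 5 ≤ p → p ≤ q → q ≤ a + 4 / 5 →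
      h q - h p = ∫ t in p..q, h' t := by
    intro p q hp hpq hq
    rw [integral_eq_sub_of_hasDerivAt _ (hle p q hp hpq hq)]
    intro x hx
    rw [uIcc_of_le hpq] at hx
    exact hd x ⟨hp.trans hx.1, hx.2.trans hq⟩
  have e1 := hf (a + 1 / 5) (a + 2 / 5) (by linarith) (by linarith) (by linarith)
  have e2 := hf (a + 3 / 5) (a + 4 / 5) (by linarith) (by linarith) (by linarith)
  have b1 : |∫ t in (a + 1 / 5)..(a + 2 / 5), h' t| ≤ ∫ t in (a + 1 / 5)..(a + 2 / 5), |h' t| :=
    abs_integral_le_integral_abs (by linarith)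
  have b2 : |∫ t in (a + 3 / 5)..(a + 4 / 5), h' t| ≤ ∫ t in (a + 3 / 5)..(a + 4 / 5), |h' t| :=
    abs_integral_le_integral_abs (by linarith)
  have b3 : 0 ≤ ∫ t in (a + 2 / 5)..(a + 3 / 5), |h' t| :=
    integral_nonneg (by linarith) (fun _ _ => abs_nonneg _)
  have s1 := integral_add_adjacent_intervals
    (hle (a + 1 / 5) (a + 2 / 5) (by linarith) (by linarith) (by linarith)).abs
    (hle (a + 2 / 5) (a + 3 / 5) (by linarith) (by linarith) (by linarith)).abs
  have s2 := integral_add_adjacent_intervals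
    (hle (a + 1 / 5) (a + 3 / 5) (by linarith) (by linarith) (by linarith)).abs
    (hle (a + 3 / 5) (a + 4 / 5) (by linarith) (by linarith) (by linarith)).abs
  have ec : c5 (fun r => h (a + r)) =
      (h (a + 4 / 5) - h (a + 3 / 5)) - (h (a + 2 / 5) - h (a + 1 / 5)) := by
    unfold c5; ring
  rw [ec, e1, e2, ← s2, ← s1]
  refine (abs_sub _ _).trans ?_
  linarith

end SF
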