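import Mathlib
import Pool.Agent.helper1.SF.SpecA

/-! Module FDX of project SF (MP_d52931_gt). -/

set_option autoImplicit false

namespace SF

open MeasureTheory Set Filter Topology
open scoped ContDiff

lemma FDX_qq_pos {l l' y : ℝ} (hl : 1 ≤ l) (hl' : 1 ≤ l') (hy : 0 < y) : 0 < qq l l' y := by
  unfold qq
  have : 0 < l := by linarith
  have : 0 < l' := by linarith
  positivity

lemma FDX_exp {l l' y : ℝ} (h : 0 < qq l l' y) : Real.exp (2 * ss l l' y) = 1 / qq l l' y := by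
  unfold ss
  rw [show 2 * (-(1 / 2) * Real.log (qq l l' y)) = -Real.log (qq l l' y) by ring, Real.exp_neg,
    Real.exp_log h, one_div]

lemma FDX_nv_pos {u : ℤ × ℤ} (hu : u ≠ 0) {y : ℝ} (hy : 0 < y) : 0 < nv u y := by
  unfold nv
  rcases eq_or_ne u.1 0 with h1 | h1
  · have h2 : u.2 ≠ 0 := fun h2 => hu (Prod.ext h1 h2)
    have : (u.2 : ℝ) ≠ 0 := by exact_mod_cast h2
    positivity
  · have : (u.1 : ℝ) ≠ 0 := by exact_mod_cast h1
    positivity

/-- all vectors are long on the path -/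
lemma FDX_key {l l' y : ℝ} (hl : 1 ≤ l) (hl' : 1 ≤ l') (hy : 0 < y) {u : ℤ × ℤ} (hu : u ≠ 0) :
    Real.exp (2 * ss l l' y) * y < nv u y := by
  have hq := FDX_qq_pos hl hl' hy
  rw [FDX_exp hq]
  have hq1 : 1 + y ^ 2 ≤ qq l l' y * y := by
    unfold qq
    have h1 : (y * l' ^ 2 + l ^ 2 / y) * y = y ^ 2 * l' ^ 2 + l ^ 2 := by field_simp
    rw [h1]
    have h2 : 1 ≤ l ^ 2 := by nlinarith
    have h3 : 1 ≤ l' ^ 2 := by nlinarith
    nlinarith [sq_nonneg y]
  have h0 : 1 / qq l l' y * y * (qq l l' y * y) = y ^ 2 := by field_simp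
  have h2 : 0 < 1 / qq l l' y * y := by positivity
  have h1 : 1 / qq l l' y * y * (1 + y ^ 2) ≤ y ^ 2 :=
    (mul_le_mul_of_nonneg_left hq1 h2.le).trans_eq h0
  set e := 1 / qq l l' y * y
  unfold nv
  rcases eq_or_ne u.1 0 with h | h
  · have h3 : u.2 ≠ 0 := fun h3 => hu (Prod.ext h h3)
    have h4 : (1 : ℝ) ≤ (u.2 : ℝ) ^ 2 := by
      have : (1 : ℤ) ≤ u.2 ^ 2 := by
        have := sq_pos_of_ne_zero h3
        omega
      exact_mod_cast this
    have h5 : 0 ≤ (u.1 : ℝ) ^ 2 * y ^ 2 := by positivity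
    nlinarith [sq_nonneg y, mul_pos h2 (pow_pos hy 2)]
  · have h4 : (1 : ℝ) ≤ (u.1 : ℝ) ^ 2 := by
      have : (1 : ℤ) ≤ u.1 ^ 2 := by
        have := sq_pos_of_ne_zero h
        omega
      exact_mod_cast this
    have h5 : 0 ≤ (u.2 : ℝ) ^ 2 := by positivity
    nlinarith [sq_nonneg y, mul_pos h2 (pow_pos hy 2), mul_le_mul_of_nonneg_right h4 (sq_nonneg y)]

/-- chain rule -/
lemma FDX_chain (hBS : BS_stmt) {f : ℝ → ℝ → ℝ → ℝ} (hf : Sm f) {s y : ℝ} {X Y : ℝ → ℝ} {X' Y' t : ℝ}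
    (hX : HasDerivAt X X' t) (hY : HasDerivAt Y Y' t) (hy : 0 < Y t) :
    HasDerivAt (fun x => f s (X x) (Y x)) (dX f s (X t) (Y t) * X' + dY f s (X t) (Y t) * Y') t := by
  have hopen : IsOpen {p : ℝ × ℝ × ℝ | 0 < p.2.2} :=
    isOpen_lt continuous_const (continuous_snd.comp continuous_snd)
  have hd : DifferentiableAt ℝ (fun p : ℝ × ℝ × ℝ => f p.1 p.2.1 p.2.2) (s, X t, Y t) :=
    ((hf.contDiffAt (hopen.mem_nhds (show (0 : ℝ) < Y t from hy))).differentiableAt (by simp))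
  have hF := hd.hasFDerivAt
  set L := fderiv ℝ (fun p : ℝ × ℝ × ℝ => f p.1 p.2.1 p.2.2) (s, X t, Y t)
  have eX : L (0, 1, 0) = dX f s (X t) (Y t) := by
    have hc : HasDerivAt (fun x : ℝ => (s, x, Y t)) (0, 1, 0) (X t) :=
      (hasDerivAt_const _ _).prodMk ((hasDerivAt_id _).prodMk (hasDerivAt_const _ _))
    have hF' : HasFDerivAt (fun p : ℝ × ℝ × ℝ => f p.1 p.2.1 p.2.2) L
      ((fun x : ℝ => (s, x, Y t)) (X t)) := hF
    have h1 := hF'.comp_hasDerivAt (X t) hc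
    exact h1.unique ((hBS f hf).2.2.2 s (X t) (Y t) hy).2.1
  have eY : L (0, 0, 1) = dY f s (X t) (Y t) := by
    have hc : HasDerivAt (fun x : ℝ => (s, X t, x)) (0, 0, 1) (Y t) :=
      (hasDerivAt_const _ _).prodMk ((hasDerivAt_const _ _).prodMk (hasDerivAt_id _))
    have hF' : HasFDerivAt (fun p : ℝ × ℝ × ℝ => f p.1 p.2.1 p.2.2) L
      ((fun x : ℝ => (s, X t, x)) (Y t)) := hF
    have h1 := hF'.comp_hasDerivAt (Y t) hc
    exact h1.unique ((hBS f hf).2.2.2 s (X t) (Y t) hy).2.2.1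
  have hc : HasDerivAt (fun x : ℝ => (s, X x, Y x)) (0, X', Y') t :=
    (hasDerivAt_const _ _).prodMk (hX.prodMk hY)
  have h := hF.comp_hasDerivAt t hc
  have e : L (0, X', Y') = dX f s (X t) (Y t) * X' + dY f s (X t) (Y t) * Y' := by
    have : ((0 : ℝ), X', Y') = X' • ((0 : ℝ), (1 : ℝ), (0 : ℝ)) + Y' • ((0 : ℝ), (0 : ℝ), (1 : ℝ)) := by
      ext <;> simp
    rw [this, map_add, map_smul, map_smul, eX, eY, smul_eq_mul, smul_eq_mul]
    ring
  rw [e] at h
  exact h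

lemma FDX_Xd {v : ℤ × ℤ} (hv : dt (cpl v) v = 1) {y : ℝ} (hN : 0 < nv v y) :
    HasDerivAt (fun x => XX v x y) (((v.2 : ℝ) ^ 2 - (v.1 : ℝ) ^ 2 * y ^ 2) / nv v y ^ 2) 0 := by
  have hdet : (Int.gcdB v.1 v.2 : ℝ) * v.2 - (-(Int.gcdA v.1 v.2 : ℝ)) * v.1 = 1 := by
    have : ((Int.gcdB v.1 v.2) * v.2 - (-(Int.gcdA v.1 v.2)) * v.1 : ℤ) = 1 := hv
    exact_mod_cast this
  unfold XX Xr
  set a : ℝ := (Int.gcdB v.1 v.2 : ℝ)
  set b : ℝ := (-(Int.gcdA v.1 v.2 : ℝ))
  set c : ℝ := (v.1 : ℝ)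
  set d : ℝ := (v.2 : ℝ)
  have hNe : nv v y = d ^ 2 + c ^ 2 * y ^ 2 := by unfold nv; ring
  have hN' : (c * 0 + d) ^ 2 + (c * y) ^ 2 ≠ 0 := by
    have : (c * 0 + d) ^ 2 + (c * y) ^ 2 = nv v y := by rw [hNe]; ring
    rw [this]; exact hN.ne'
  have h1 : HasDerivAt (fun x : ℝ => (a * x + b) * (c * x + d) + a * c * y ^ 2)
      (a * (c * 0 + d) + (a * 0 + b) * c) 0 := by
    have ha : HasDerivAt (fun x : ℝ => a * x + b) a 0 := by
      simpa using ((hasDerivAt_id (0 : ℝ)).const_mul a).add_const b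
    have hc : HasDerivAt (fun x : ℝ => c * x + d) c 0 := by
      simpa using ((hasDerivAt_id (0 : ℝ)).const_mul c).add_const d
    exact (ha.mul hc).add_const _
  have h2 : HasDerivAt (fun x : ℝ => (c * x + d) ^ 2 + (c * y) ^ 2)
      (2 * (c * 0 + d) * c) 0 := by
    have hc : HasDerivAt (fun x : ℝ => c * x + d) c 0 := by
      simpa using ((hasDerivAt_id (0 : ℝ)).const_mul c).add_const d
    have := (hc.pow 2).add_const ((c * y) ^ 2)
    simpa using this
  have h3 := h1.div h2 hN'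
  refine h3.congr_deriv ?_
  rw [hNe]
  have hN'' : d ^ 2 + c ^ 2 * y ^ 2 ≠ 0 := by rw [← hNe]; exact hN.ne'
  have e2 : (c * 0 + d) ^ 2 + (c * y) ^ 2 = d ^ 2 + c ^ 2 * y ^ 2 := by ring
  rw [e2]
  congr 1
  have : d ^ 2 - c ^ 2 * y ^ 2 = (d ^ 2 - c ^ 2 * y ^ 2) * (a * d - b * c) := by rw [hdet]; ring
  rw [this]
  ring

lemma FDX_Yd {v : ℤ × ℤ} {y : ℝ} (hN : 0 < nv v y) :
    HasDerivAt (fun x => YY v x y) (-(2 * (v.1 : ℝ) * (v.2 : ℝ) * y) / nv v y ^ 2) 0 := by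
  unfold YY Yr
  set c : ℝ := (v.1 : ℝ)
  set d : ℝ := (v.2 : ℝ)
  have hNe : nv v y = d ^ 2 + c ^ 2 * y ^ 2 := by unfold nv; ring
  have e2 : (c * 0 + d) ^ 2 + (c * y) ^ 2 = d ^ 2 + c ^ 2 * y ^ 2 := by ring
  have hN' : (c * 0 + d) ^ 2 + (c * y) ^ 2 ≠ 0 := by
    rw [e2, ← hNe]; exact hN.ne'
  have h2 : HasDerivAt (fun x : ℝ => (c * x + d) ^ 2 + (c * y) ^ 2)
      (2 * (c * 0 + d) * c) 0 := by
    have hc : HasDerivAt (fun x : ℝ => c * x + d) c 0 := by
      simpa using ((hasDerivAt_id (0 : ℝ)).const_mul c).add_const d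
    have := (hc.pow 2).add_const ((c * y) ^ 2)
    simpa using this
  have h3 := (hasDerivAt_const (0 : ℝ) y).div h2 hN'
  refine h3.congr_deriv ?_
  rw [hNe, e2]
  congr 1
  ring

lemma FDX_ip {u : ℤ × ℤ} {y : ℝ} : ip u u 0 y = nv u y := by
  unfold ip nv; ring

lemma FDX_YY {v : ℤ × ℤ} {y : ℝ} : YY v 0 y = y / nv v y := by
  unfold YY Yr nv
  congr 1
  ring

/-- the argument of `b1` -/
lemma FDX_arg (hMG : MG_stmt) {l l' y : ℝ} (hl : 1 ≤ l) (hl' : 1 ≤ l') (hy : 0 < y) {v : ℤ × ℤ}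
    (hv : v ∈ Pv) (m : ℤ) :
    0 < (XX v 0 y + m / 5) ^ 2 + (y / nv v y) ^ 2 ∧
    Real.exp (2 * ss l l' y) * (y / nv v y) / (25 * ((XX v 0 y + m / 5) ^ 2 + (y / nv v y) ^ 2)) < 1 := by
  obtain ⟨hM1, _, hM3, hM4, hM5, hM6⟩ := hMG
  have hv1 := hM1 v hv
  have hvv := hM3 v hv 0 y hy
  rw [FDX_ip] at hvv
  set u : ℤ × ℤ := (5 : ℤ) • cpl v + m • v with hu
  have hdt : dt u v = 5 := by
    have : dt u v = 5 * dt (cpl v) v := by
      rw [hu]; unfold dt; simp only [Prod.fst_add, Prod.snd_add, Prod.smul_fst, Prod.smul_snd, smul_eq_mul]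
      ring
    rw [this, hv1]; norm_num
  have hu0 : u ≠ 0 := by
    intro h0
    rw [h0] at hdt
    simp [dt] at hdt
  have hX := hM4 v hv 0 y hy m
  have h6 := hM6 u v 0 y
  rw [FDX_ip, FDX_ip, hdt] at h6
  rw [FDX_ip] at hX
  have hkey := FDX_key hl hl' hy hu0
  have hun := FDX_nv_pos hu0 hy
  set n := nv v y
  set nu := nv u y
  have e1 : 25 * ((XX v 0 y + m / 5) ^ 2 + (y / n) ^ 2) = nu / n := by
    rw [hX]
    have h7 : ip u v 0 y ^ 2 = nu * n - 25 * y ^ 2 := by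
      push_cast at h6
      linarith
    field_simp
    rw [h7]
    ring
  constructor
  · have : 0 < nu / n := by positivity
    linarith [e1 ▸ this]
  · rw [e1]
    have e3 : Real.exp (2 * ss l l' y) * (y / n) / (nu / n) = Real.exp (2 * ss l l' y) * y / nu := by
      field_simp
    rw [e3, div_lt_one hun]
    exact hkey

theorem FDX (hRA : RA_stmt) (hBS : BS_stmt) (hMG : MG_stmt) (hB01 : B01_stmt) (hK1 : K1_stmt) :
    FDX_stmt := by
  intro g hg v hv l l' y hl hl' hy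
  have hv1 := hMG.1 v hv
  have hv0 : v ≠ 0 := by
    intro h0
    rw [h0] at hv1
    simp [dt] at hv1
  have hN := FDX_nv_pos hv0 hy
  set s := ss l l' y with hs
  set X0 := XX v 0 1 with hX0
  set X := XX v 0 y with hXd
  set Y := y / nv v y with hYd
  have hY : 0 < Y := by rw [hYd]; positivity
  have hYY : YY v 0 y = Y := FDX_YY
  -- derivatives of the argument
  have dXX := FDX_Xd hv1 hN
  have dYY := FDX_Yd hN
  set Xp := ((v.2 : ℝ) ^ 2 - (v.1 : ℝ) ^ 2 * y ^ 2) / nv v y ^ 2 with hXp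
  set Yp := -(2 * (v.1 : ℝ) * (v.2 : ℝ) * y) / nv v y ^ 2 with hYp
  -- RA
  obtain ⟨hSm, _, hR⟩ := hRA g hg X0
  obtain ⟨_, _, hdX, hdY, hsX, hsY⟩ := hR s X Y hY
  have hkSm := (hK1 g hg).1
  have hbSm : Sm (b1 g) := (hB01 g hg).2.1
  -- b1 vanishes nearby
  have hb1 : ∀ m : ℤ, dX (b1 g) s (X + m / 5) Y = 0 ∧ dY (b1 g) s (X + m / 5) Y = 0 := by
    intro m
    obtain ⟨hp, hlt⟩ := FDX_arg hMG hl hl' hy hv m
    rw [← hs, ← hXd, ← hYd] at hlt
    rw [← hXd, ← hYd] at hp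
    constructor
    · have hc : ContinuousAt (fun t : ℝ => Real.exp (2 * s) * Y / (25 * (t ^ 2 + Y ^ 2))) (X + m / 5) := by
        apply ContinuousAt.div (by fun_prop) (by fun_prop)
        positivity
      have he := hc.eventually (gt_mem_nhds hlt)
      have : (fun t => b1 g s t Y) =ᶠ[𝓝 (X + m / 5)] fun _ => 0 := by
        filter_upwards [he] with t ht
        unfold b1
        rw [hg.lo _ ht.le, mul_zero]
      unfold dX
      rw [this.deriv_eq]
      exact deriv_const _ _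
    · have hc : ContinuousAt (fun t : ℝ => Real.exp (2 * s) * t / (25 * ((X + m / 5) ^ 2 + t ^ 2))) Y := by
        apply ContinuousAt.div (by fun_prop) (by fun_prop)
        positivity
      have he := hc.eventually (gt_mem_nhds hlt)
      have : (fun t => b1 g s (X + m / 5) t) =ᶠ[𝓝 Y] fun _ => 0 := by
        filter_upwards [he] with t ht
        unfold b1
        rw [hg.lo _ ht.le, mul_zero]
      unfold dY
      rw [this.deriv_eq]
      exact deriv_const _ _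
  -- one term
  have term : ∀ (k : ℤ) (r : ℝ) (m : ℤ), (k : ℝ) + r = m / 5 →
      HasDerivAt (fun t => k1 g s (t + k + r) Y + 1 / 2 * Real.sign (X0 + k + r) * b1 g s (t + k + r) Y)
        (dX (k1 g) s (X + k + r) Y) X ∧
      HasDerivAt (fun t => k1 g s (X + k + r) t + 1 / 2 * Real.sign (X0 + k + r) * b1 g s (X + k + r) t)
        (dY (k1 g) s (X + k + r) Y) Y := by
    intro k r m hm
    have e : X + k + r = X + m / 5 := by rw [add_assoc, hm]
    obtain ⟨z1, z2⟩ := hb1 m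
    rw [← e] at z1 z2
    constructor
    · have h1 := ((hBS (k1 g) hkSm).2.2.2 s (X + k + r) Y hY).2.1
      have h2 := ((hBS (b1 g) hbSm).2.2.2 s (X + k + r) Y hY).2.1
      rw [z1] at h2
      have hsh : HasDerivAt (fun t : ℝ => t + k + r) 1 X := by
        simpa using ((hasDerivAt_id X).add_const (k : ℝ)).add_const r
      have h3 := (HasDerivAt.comp X h1 hsh).add ((HasDerivAt.comp X h2 hsh).const_mul
        (1 / 2 * Real.sign (X0 + k + r)))
      have e5 : dX (k1 g) s (X + k + r) Y * 1 + 1 / 2 * Real.sign (X0 + k + r) * (0 * 1) =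
        dX (k1 g) s (X + k + r) Y := by ring
      rw [e5] at h3
      exact h3
    · have h1 := ((hBS (k1 g) hkSm).2.2.2 s (X + k + r) Y hY).2.2.1
      have h2 := ((hBS (b1 g) hbSm).2.2.2 s (X + k + r) Y hY).2.2.1
      rw [z2] at h2
      have h3 := h1.add (h2.const_mul (1 / 2 * Real.sign (X0 + k + r)))
      have e5 : dY (k1 g) s (X + k + r) Y + 1 / 2 * Real.sign (X0 + k + r) * 0 =
        dY (k1 g) s (X + k + r) Y := by ring
      rw [e5] at h3
      exact h3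
  have hBX : ∀ k : ℤ, dX (fun s x y => Bk g s x y X0 k) s X Y =
      c5 (fun r => dX (k1 g) s (X + k + r) Y) := by
    intro k
    have a1 := (term k (1 / 5) (5 * k + 1) (by push_cast; ring)).1
    have a2 := (term k (2 / 5) (5 * k + 2) (by push_cast; ring)).1
    have a3 := (term k (3 / 5) (5 * k + 3) (by push_cast; ring)).1
    have a4 := (term k (4 / 5) (5 * k + 4) (by push_cast; ring)).1
    exact (((a1.sub a2).sub a3).add a4).deriv
  have hBY : ∀ k : ℤ, dY (fun s x y => Bk g s x y X0 k) s X Y =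
      c5 (fun r => dY (k1 g) s (X + k + r) Y) := by
    intro k
    have a1 := (term k (1 / 5) (5 * k + 1) (by push_cast; ring)).2
    have a2 := (term k (2 / 5) (5 * k + 2) (by push_cast; ring)).2
    have a3 := (term k (3 / 5) (5 * k + 3) (by push_cast; ring)).2
    have a4 := (term k (4 / 5) (5 * k + 4) (by push_cast; ring)).2
    exact (((a1.sub a2).sub a3).add a4).deriv
  simp_rw [hBX] at hdX hsX
  simp_rw [hBY] at hdY hsY
  have hterm : ∀ k : ℤ, c5 (fun r => Fv g v s y (X + k + r)) =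
      c5 (fun r => dX (k1 g) s (X + k + r) Y) * Xp + c5 (fun r => dY (k1 g) s (X + k + r) Y) * Yp := by
    intro k
    unfold c5 Fv
    ring
  have hsum : Summable (fun k : ℤ => c5 (fun r => Fv g v s y (X + k + r))) := by
    simp_rw [hterm]
    exact (hsX.mul_right Xp).add (hsY.mul_right Yp)
  refine ⟨hsum, ?_⟩
  -- the derivative of the term of v
  have hb0 : (fun x => psi X0 * b0 g s (YY v x y)) =ᶠ[𝓝 0] fun _ => 0 := by
    have hlt : Real.exp (2 * s) * YY v 0 y < 1 := by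
      rw [hYY, hYd, ← mul_div_assoc, div_lt_one hN]
      exact FDX_key hl hl' hy hv0
    have hc : ContinuousAt (fun x : ℝ => Real.exp (2 * s) * YY v x y) 0 :=
      continuousAt_const.mul dYY.continuousAt
    filter_upwards [hc.eventually (gt_mem_nhds hlt)] with x hx
    unfold b0
    rw [hg.lo _ hx.le, mul_zero, mul_zero]
  have hd0 : HasDerivAt (fun x => psi X0 * b0 g s (YY v x y)) 0 0 :=
    (hasDerivAt_const (0 : ℝ) (0 : ℝ)).congr_of_eventuallyEq hb0
  have hpos : 0 < (fun x => YY v x y) 0 := by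
    show 0 < YY v 0 y
    rw [hYY]; exact hY
  have hd1 := FDX_chain hBS hSm (s := s) (y := y) dXX dYY hpos
  have hd2 := hd0.add hd1
  have hfin : dX (FF g v) s 0 y = 0 + (dX (fun s x y => RR g s x y X0) s X Y * Xp +
      dY (fun s x y => RR g s x y X0) s X Y * Yp) := by
    have := hd2.deriv
    rw [hYY] at this
    exact this
  rw [hfin, hdX, hdY, zero_add]
  simp_rw [hterm]
  rw [(hsX.mul_right Xp).tsum_add (hsY.mul_right Yp), tsum_mul_right, tsum_mul_right]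

end SF
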