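import Mathlib
import Pool.Agent.helper1.SF.SpecA

/-! Modules PKJ and PKF of project SF (MP_d52931_gt). -/

set_option autoImplicit false

namespace SF

open MeasureTheory Set

lemma PKJ_pow4 (k : ℕ) : (k + 1) ^ 4 ≤ 81 * 2 ^ k := by
  rcases lt_or_ge k 6 with h | h
  · interval_cases k <;> norm_num
  · induction k, h using Nat.le_induction with
    | base => norm_num
    | succ n hn ih =>
      have h1 : (n + 1 + 1) ^ 4 ≤ 2 * (n + 1) ^ 4 := by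
        obtain ⟨j, rfl⟩ := Nat.exists_eq_add_of_le hn
        ring_nf
        nlinarith [Nat.zero_le j, Nat.zero_le (j ^ 2), Nat.zero_le (j ^ 3), Nat.zero_le (j ^ 4)]
      calc (n + 1 + 1) ^ 4 ≤ 2 * (n + 1) ^ 4 := h1
        _ ≤ 2 * (81 * 2 ^ n) := Nat.mul_le_mul_left _ ih
        _ = 81 * 2 ^ (n + 1) := by ring

/-- the fourth root of `2^k` -/
lemma PKJ_t (k : ℕ) : 1 ≤ √(√((2 : ℝ) ^ k)) ∧ √(√((2 : ℝ) ^ k)) ^ 2 = √(2 ^ k) ∧
    √(√((2 : ℝ) ^ k)) ^ 4 = 2 ^ k ∧ ((k : ℝ) + 1) ≤ 3 * √(√((2 : ℝ) ^ k)) := by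
  have h1 : (1 : ℝ) ≤ 2 ^ k := one_le_pow₀ (by norm_num)
  have h2 : (1 : ℝ) ≤ √(2 ^ k) := Real.one_le_sqrt.2 h1
  have h3 : 1 ≤ √(√((2 : ℝ) ^ k)) := Real.one_le_sqrt.2 h2
  have h4 : √(√((2 : ℝ) ^ k)) ^ 2 = √(2 ^ k) := Real.sq_sqrt (Real.sqrt_nonneg _)
  have h5 : √(√((2 : ℝ) ^ k)) ^ 4 = 2 ^ k := by
    calc √(√((2 : ℝ) ^ k)) ^ 4 = (√(√((2 : ℝ) ^ k)) ^ 2) ^ 2 := by ring
      _ = 2 ^ k := by rw [h4, Real.sq_sqrt (by positivity)]
  refine ⟨h3, h4, h5, ?_⟩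
  have h6 : ((k : ℝ) + 1) ^ 4 ≤ (3 * √(√((2 : ℝ) ^ k))) ^ 4 := by
    rw [mul_pow, h5]
    have := PKJ_pow4 k
    have h7 : (((k + 1) ^ 4 : ℕ) : ℝ) ≤ ((81 * 2 ^ k : ℕ) : ℝ) := by exact_mod_cast this
    push_cast at h7
    linarith
  exact le_of_pow_le_pow_left₀ (by norm_num) (by positivity) h6

lemma PKJ_yk (k : ℕ) : 0 < yk k ∧ yk k ≤ 1 / 2 ∧ Real.log (1 / yk k) = 30 * (k + 1) * Real.log 2 ∧
    √(yk k) = 1 / 2 ^ (15 * (k + 1)) := by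
  have h0 : 0 < yk k := by unfold yk; positivity
  refine ⟨h0, ?_, ?_, ?_⟩
  · unfold yk
    apply one_div_le_one_div_of_le (by norm_num)
    calc (2 : ℝ) = 2 ^ 1 := by norm_num
      _ ≤ 2 ^ (30 * (k + 1)) := pow_le_pow_right₀ (by norm_num) (by omega)
  · unfold yk
    rw [one_div_one_div, Real.log_pow]
    push_cast
    ring
  · unfold yk
    rw [show (1 : ℝ) / 2 ^ (30 * (k + 1)) = (1 / 2 ^ (15 * (k + 1))) ^ 2 by
      rw [div_pow, one_pow, ← pow_mul]; congr 2; ring]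
    exact Real.sqrt_sq (by positivity)

theorem PKJ (hJEA : JEA_stmt) (hPKA : PKA_stmt) (hPKB : PKB_stmt) (hPKC : PKC_stmt) : PKJ_stmt := by
  obtain ⟨CJ, hCJ, hJ⟩ := hJEA
  obtain ⟨CB, hCB, hB⟩ := hPKB
  obtain ⟨CC, hCC, hC⟩ := hPKC
  refine ⟨CJ * (30 * 3 * Real.log 2 * CC) + CJ * CB, by
    have : 0 < Real.log 2 := Real.log_pos (by norm_num)
    positivity, ?_⟩
  intro k l l' δ hl hl' hδ hδ1 hNR hk
  have hl2 : 0 < Real.log 2 := Real.log_pos (by norm_num)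
  obtain ⟨hy0, hy1, hylog, hysq⟩ := PKJ_yk k
  obtain ⟨t1, t2, t4, tk⟩ := PKJ_t k
  set t := √(√((2 : ℝ) ^ k)) with ht
  have h2k : (0 : ℝ) < 2 ^ k := by positivity
  have hcond : 200 * (1 / 2 ^ (k + 3)) * (l + l') ^ 2 ≤ δ := by
    have e : 200 * (1 / (2 : ℝ) ^ (k + 3)) * (l + l') ^ 2 = 25 * (l + l') ^ 2 / 2 ^ k := by
      rw [pow_add]; field_simp; norm_num
    rw [e, div_le_iff₀ h2k]
    exact hk
  have h := hJ (1 / 2 ^ (k + 3)) (pk k) (CB * 2 ^ (12 * k)) l l' δ (yk k) (hPKA.2.2 k) (hB k) hl hl'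
    hδ hδ1 hy0 hy1 hNR hcond
  refine h.trans ?_
  rw [hylog, hysq]
  have hsδ : 0 < √δ := Real.sqrt_pos.2 hδ
  have hsδ1 : √δ ≤ 1 := Real.sqrt_le_one.2 hδ1
  set D := (l + l') ^ 4 with hD
  have hD1 : 1 ≤ D := one_le_pow₀ (by linarith)
  have ht0 : 0 < t := by linarith
  -- first part
  have p1 : CJ * D * (30 * (k + 1) * Real.log 2) / √δ * (∫ σ in (1 : ℝ)..2, |deriv (pk k) σ|) ≤
      CJ * (30 * 3 * Real.log 2 * CC) * D / √δ / t := by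
    have hI := (hC k).1
    rw [← t2] at hI
    calc CJ * D * (30 * (k + 1) * Real.log 2) / √δ * (∫ σ in (1 : ℝ)..2, |deriv (pk k) σ|)
        ≤ CJ * D * (30 * (k + 1) * Real.log 2) / √δ * (CC / t ^ 2) :=
          mul_le_mul_of_nonneg_left hI (by positivity)
      _ ≤ CJ * D * (30 * (3 * t) * Real.log 2) / √δ * (CC / t ^ 2) := by
          gcongr
      _ = CJ * (30 * 3 * Real.log 2 * CC) * D / √δ / t := by
          field_simp
  have p2 : CJ * (CB * 2 ^ (12 * k)) * (1 / 2 ^ (15 * (k + 1))) ≤ CJ * CB * D / √δ / t := by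
    have e1 : (2 : ℝ) ^ (12 * k) * (1 / 2 ^ (15 * (k + 1))) ≤ 1 / t := by
      rw [mul_one_div, div_le_div_iff₀ (by positivity) ht0, one_mul]
      calc (2 : ℝ) ^ (12 * k) * t ≤ 2 ^ (12 * k) * t ^ 4 := by
            gcongr
            exact le_self_pow₀ t1 (by norm_num)
        _ = 2 ^ (13 * k) := by rw [t4, ← pow_add]; congr 1; ring
        _ ≤ 2 ^ (15 * (k + 1)) := pow_le_pow_right₀ (by norm_num) (by omega)
    have e2 : 1 ≤ D / √δ := by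
      rw [le_div_iff₀ hsδ]; linarith
    calc CJ * (CB * 2 ^ (12 * k)) * (1 / 2 ^ (15 * (k + 1)))
        = CJ * CB * ((2 : ℝ) ^ (12 * k) * (1 / 2 ^ (15 * (k + 1)))) := by ring
      _ ≤ CJ * CB * (1 / t) := by gcongr
      _ ≤ CJ * CB * (D / √δ * (1 / t)) := by
          gcongr
          exact le_mul_of_one_le_left (by positivity) e2
      _ = CJ * CB * D / √δ / t := by ring
  calc _ ≤ CJ * (30 * 3 * Real.log 2 * CC) * D / √δ / t + CJ * CB * D / √δ / t := add_le_add p1 p2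
    _ = (CJ * (30 * 3 * Real.log 2 * CC) + CJ * CB) * D / √δ / t := by ring

end SF
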