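import Mathlib
import Pool.Agent.helper1.SF.PKJ

/-! Module PKF of project SF (MP_d52931_gt). -/

set_option autoImplicit false

namespace SF

open MeasureTheory Set

theorem PKF (hEDB : EDB_stmt) (hPKA : PKA_stmt) (hPKC : PKC_stmt) (hPKD : PKD_stmt) : PKF_stmt := by
  obtain ⟨CE, hCE, hE⟩ := hEDB
  obtain ⟨CC, hCC, hC⟩ := hPKC
  refine ⟨CE * (CC + CC), by positivity, ?_⟩
  intro k l1 l2 δ hl1 hl2 hδ hδ1 hp hk
  obtain ⟨hy0, hy1, _, hysq⟩ := PKJ_yk k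
  have h2k : (0 : ℝ) < 2 ^ k := by positivity
  have h2k1 : (1 : ℝ) ≤ 2 ^ k := one_le_pow₀ (by norm_num)
  set D := 1 + l1 + l2 with hD
  have hD1 : 1 ≤ D := by linarith
  have hD2 : D ^ 2 ≤ 2 ^ k := by
    have : δ * 2 ^ k ≤ 1 * 2 ^ k := mul_le_mul_of_nonneg_right hδ1 h2k.le
    nlinarith [sq_nonneg D]
  have hc1 : 50 * (1 / 2 ^ (k + 3)) * D ^ 2 ≤ δ := by
    have e : 50 * (1 / (2 : ℝ) ^ (k + 3)) * D ^ 2 = 50 / 8 * D ^ 2 / 2 ^ k := by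
      rw [pow_add]; field_simp; norm_num
    rw [e, div_le_iff₀ h2k]
    nlinarith [sq_nonneg D]
  have hysq2 : yk k ^ 2 = 1 / 2 ^ (60 * (k + 1)) := by
    unfold yk
    rw [div_pow, one_pow, ← pow_mul]
    congr 2
    ring
  have hc2 : D ^ 8 * yk k ^ 2 ≤ 1 / 2 ^ (k + 3) := by
    rw [hysq2, mul_one_div, div_le_div_iff₀ (by positivity) (by positivity), one_mul]
    calc D ^ 8 * 2 ^ (k + 3) = (D ^ 2) ^ 4 * 2 ^ (k + 3) := by ring
      _ ≤ (2 ^ k) ^ 4 * 2 ^ (k + 3) := by gcongr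
      _ = 2 ^ (5 * k + 3) := by rw [← pow_mul, ← pow_add]; congr 1; ring
      _ ≤ 2 ^ (60 * (k + 1)) := pow_le_pow_right₀ (by norm_num) (by omega)
  have h := hE (1 / 2 ^ (k + 3)) (pk k) l1 l2 δ (yk k) (hPKA.2.2 k) hl1 hl2 hδ hδ1 hp hc1 hy0
    (hy1.trans (by norm_num)) hc2
  rw [hPKD k] at h
  have ec : 1 / (2 * Real.pi) * (Real.log 2 / 2) * L0 l1 l2 =
      Real.log 2 / (4 * Real.pi) * L0 l1 l2 := by
    field_simp
    ring
  rw [ec] at h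
  refine h.trans ?_
  have hsδ : 0 < √δ := Real.sqrt_pos.2 hδ
  have hsδ1 : √δ ≤ 1 := Real.sqrt_le_one.2 hδ1
  have hI1 := (hC k).1
  have hI2 := (hC k).2
  have hs : 0 < √((2 : ℝ) ^ k) := by positivity
  have p1 : 1 / √δ * (∫ σ in (1 : ℝ)..2, |deriv (pk k) σ|) ≤ 1 / √δ * (CC / √(2 ^ k)) :=
    mul_le_mul_of_nonneg_left hI1 (by positivity)
  have e4 : √(√(yk k ^ 2 / (1 / 2 ^ (k + 3)))) ≤ 1 / √(2 ^ k) := by
    apply Real.sqrt_le_iff.2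
    refine ⟨by positivity, ?_⟩
    apply Real.sqrt_le_iff.2
    refine ⟨by positivity, ?_⟩
    have e5 : ((1 / √((2 : ℝ) ^ k)) ^ 2) ^ 2 = 1 / 2 ^ (2 * k) := by
      rw [div_pow, one_pow, Real.sq_sqrt h2k.le, div_pow, one_pow, ← pow_mul]
      congr 2
      ring
    rw [e5, hysq2, div_div_eq_mul_div, div_one, div_mul_eq_mul_div, one_mul,
      div_le_div_iff₀ (by positivity) (by positivity), one_mul, ← pow_add]
    exact pow_le_pow_right₀ (by norm_num) (by omega)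
  have hI0 : 0 ≤ ∫ σ in (1 : ℝ)..2, |deriv (pk k) σ| / √(σ - 1) := by
    apply intervalIntegral.integral_nonneg (by norm_num)
    intro u _
    positivity
  have p2 : √(√(yk k ^ 2 / (1 / 2 ^ (k + 3)))) * (∫ σ in (1 : ℝ)..2, |deriv (pk k) σ| / √(σ - 1)) ≤
      1 / √δ * (CC / √(2 ^ k)) := by
    calc √(√(yk k ^ 2 / (1 / 2 ^ (k + 3)))) * (∫ σ in (1 : ℝ)..2, |deriv (pk k) σ| / √(σ - 1))
        ≤ 1 / √(2 ^ k) * CC := mul_le_mul e4 hI2 hI0 (by positivity)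
      _ = 1 * (CC / √(2 ^ k)) := by ring
      _ ≤ 1 / √δ * (CC / √(2 ^ k)) := by
          apply mul_le_mul_of_nonneg_right _ (by positivity)
          rw [le_div_iff₀ hsδ]
          linarith
  calc CE * D ^ 2 * (1 / √δ * (∫ σ in (1 : ℝ)..2, |deriv (pk k) σ|) +
        √(√(yk k ^ 2 / (1 / 2 ^ (k + 3)))) * (∫ σ in (1 : ℝ)..2, |deriv (pk k) σ| / √(σ - 1)))
      ≤ CE * D ^ 2 * (1 / √δ * (CC / √(2 ^ k)) + 1 / √δ * (CC / √(2 ^ k))) :=
        mul_le_mul_of_nonneg_left (add_le_add p1 p2) (by positivity)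
    _ = CE * (CC + CC) * D ^ 2 / √δ / √(2 ^ k) := by
        field_simp

end SF
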